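import Mathlib

set_option autoImplicit false
set_option linter.unusedSectionVars false

namespace Pool.Agent.Lib.MP_fd02da_an

open Filter Topology

variable {H : Type*} [NormedAddCommGroup H] [InnerProductSpace ℂ H] [CompleteSpace H]

theorem mem_spectrum_real_of_eigen (A : H →L[ℂ] H) (l : ℝ) (u : H) (hu : u ≠ 0)
    (h : A u = (l : ℂ) • u) : l ∈ spectrum ℝ A := by
  rw [spectrum.mem_iff]
  intro hunit
  obtain ⟨v, hv⟩ := hunit
  have h1 : (v : H →L[ℂ] H) u = 0 := by
    rw [hv]
    simp only [sub_apply, h]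
    rw [Algebra.algebraMap_eq_smul_one]
    simp
  have h2 : ((↑v⁻¹ : H →L[ℂ] H) * (v : H →L[ℂ] H)) u = u := by
    rw [Units.inv_mul]; rfl
  rw [mul_apply_eq_comp, h1, map_zero] at h2
  exact hu h2.symm

/-- The continuous functional calculus acts on eigenvectors as expected. -/
theorem cfc_apply_eigen (A : H →L[ℂ] H) (hA : IsSelfAdjoint A) (l : ℝ) (u : H)
    (h : A u = (l : ℂ) • u) (f : ℝ → ℝ) (hf : ContinuousOn f (spectrum ℝ A)) :
    (cfc f A) u = ((f l : ℝ) : ℂ) • u := by
  by_cases hu : u = 0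
  · simp [hu]
  have hl : l ∈ spectrum ℝ A := mem_spectrum_real_of_eigen A l u hu h
  rw [cfc_apply f A hA hf]
  have key : ∀ g : C(spectrum ℝ A, ℝ), (cfcHom hA g) u = ((g ⟨l, hl⟩ : ℝ) : ℂ) • u := by
    intro g
    induction g using ContinuousMap.induction_on_of_compact with
    | const r =>
      have h1 : (ContinuousMap.const (spectrum ℝ A) r) = algebraMap ℝ C(spectrum ℝ A, ℝ) r := rfl
      rw [h1, AlgHomClass.commutes, Algebra.algebraMap_eq_smul_one]
      simp
    | id =>
      rw [cfcHom_id hA, h]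
      simp
    | star_id =>
      rw [map_star, cfcHom_id hA, hA.star_eq, h]
      simp
    | add g1 g2 h1 h2 =>
      rw [map_add, add_apply, h1, h2, ← add_smul]
      simp
    | mul g1 g2 h1 h2 =>
      rw [map_mul, mul_apply_eq_comp, h2, map_smul, h1, smul_smul]
      congr 1
      simp [mul_comm]
    | frequently g hg =>
      have hc1 : Continuous (fun g : C(spectrum ℝ A, ℝ) => (cfcHom hA g) u) := by
        have := cfcHom_continuous (R := ℝ) hA
        fun_prop
      have hc2 : Continuous (fun g : C(spectrum ℝ A, ℝ) => ((g ⟨l, hl⟩ : ℝ) : ℂ) • u) := by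
        have : Continuous (fun g : C(spectrum ℝ A, ℝ) => g ⟨l, hl⟩) :=
          continuous_eval_const _
        fun_prop
      have hclosed : IsClosed {g : C(spectrum ℝ A, ℝ) | (cfcHom hA g) u = ((g ⟨l, hl⟩ : ℝ) : ℂ) • u} :=
        isClosed_eq hc1 hc2
      exact hclosed.mem_of_frequently_of_tendsto hg tendsto_id
  rw [key]
  simp

end Pool.Agent.Lib.MP_fd02da_an
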