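import Mathlib
import Pool.Agent.Lib.MP_fd02da_an.Cfc

set_option autoImplicit false
set_option linter.unusedSectionVars false

namespace Pool.Agent.Lib.MP_fd02da_an

open Filter Topology Module.End
open scoped ENNReal

universe v
variable {H : Type v} [NormedAddCommGroup H] [InnerProductSpace ℂ H] [CompleteSpace H]

/-- A Hilbert basis consisting of eigenvectors of `a⋆ a`. -/
def IsSing {ι : Type v} (a : H →L[ℂ] H) (u : HilbertBasis ι ℂ H) : Prop :=
  ∀ i, (star a) (a (u i)) = ((‖a (u i)‖ ^ 2 : ℝ) : ℂ) • u i

theorem isSymmetric_star_mul (a : H →L[ℂ] H) : (star a * a).IsSymmetric :=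
  (IsSelfAdjoint.star_mul_self a).isSymmetric

theorem exists_sing (a : H →L[ℂ] H) (ha : IsCompactOperator a) :
    ∃ (ι : Type v) (u : HilbertBasis ι ℂ H), IsSing a u := by
  set A : H →L[ℂ] H := star a * a with hA
  have hsymm : A.IsSymmetric := isSymmetric_star_mul a
  have hcomp : IsCompactOperator A := ha.clm_comp (star a)
  have hbot := ContinuousLinearMap.orthogonalComplement_iSup_eigenspaces_eq_bot hcomp hsymm
  have hfam := LinearMap.IsSymmetric.orthogonalFamily_eigenspaces hsymm
  have hclosed : ∀ μ : ℂ, CompleteSpace (eigenspace (A : Module.End ℂ H) μ) := by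
    intro μ
    have : IsClosed ((eigenspace (A : Module.End ℂ H) μ : Submodule ℂ H) : Set H) := by
      have h1 : ((eigenspace (A : Module.End ℂ H) μ : Submodule ℂ H) : Set H)
          = {x | A x = μ • x} := by
        ext x
        simp
      rw [h1]
      exact isClosed_eq A.continuous (continuous_const_smul μ)
    exact this.completeSpace_coe
  choose w b hb using fun μ : ℂ => exists_hilbertBasis ℂ (eigenspace (A : Module.End ℂ H) μ)
  have horth := hfam.orthonormal_sigma_orthonormal (v_family := fun μ => (b μ))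
    (fun μ => (b μ).orthonormal)
  set v : (Σ μ : ℂ, w μ) → H := fun x => ((b x.1 x.2 : eigenspace (A : Module.End ℂ H) x.1) : H) with hv
  have horth' : Orthonormal ℂ v := horth
  have hspan : (Submodule.span ℂ (Set.range v))ᗮ = ⊥ := by
    rw [Submodule.eq_bot_iff]
    intro x hx
    have hx2 : x ∈ (⨆ μ, eigenspace (A : Module.End ℂ H) μ)ᗮ := by
      rw [← Submodule.iInf_orthogonal, Submodule.mem_iInf]
      intro μ
      rw [Submodule.mem_orthogonal]
      intro y hy
      set P := (eigenspace (A : Module.End ℂ H) μ).orthogonalProjectionOnto x with hP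
      have hP0 : P = 0 := by
        have h1 : ∀ i : w μ, (b μ).repr P i = 0 := by
          intro i
          rw [HilbertBasis.repr_apply_apply]
          have h2 : inner ℂ ((b μ i : eigenspace (A : Module.End ℂ H) μ) : H) x = 0 := by
            rw [Submodule.mem_orthogonal] at hx
            exact hx _ (Submodule.subset_span ⟨⟨μ, i⟩, rfl⟩)
          rw [← h2, hP]
          exact Submodule.inner_orthogonalProjectionOnto_eq_of_mem_left (b μ i) x
        have h2 : (b μ).repr P = 0 := by
          ext i
          rw [h1 i]; rfl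
        exact (LinearIsometryEquiv.map_eq_zero_iff _).mp h2
      have h3 := Submodule.inner_orthogonalProjectionOnto_eq_of_mem_left
        (⟨y, hy⟩ : eigenspace (A : Module.End ℂ H) μ) x
      rw [← hP, hP0, inner_zero_right] at h3
      exact h3.symm
    rw [hbot] at hx2
    exact hx2
  refine ⟨_, HilbertBasis.mkOfOrthogonalEqBot horth' hspan, ?_⟩
  intro i
  rw [HilbertBasis.coe_mkOfOrthogonalEqBot]
  have hmem : v i ∈ eigenspace (A : Module.End ℂ H) i.1 := (b i.1 i.2).2
  have hAv : A (v i) = i.1 • v i := by
    rw [mem_eigenspace_iff] at hmem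
    exact hmem
  have hnorm : ‖v i‖ = 1 := horth'.1 i
  have h1 : inner ℂ (v i) (A (v i)) = i.1 := by
    rw [hAv, inner_smul_right, inner_self_eq_norm_sq_to_K, hnorm]
    simp
  have h2 : inner ℂ (v i) (A (v i)) = ((‖a (v i)‖ ^ 2 : ℝ) : ℂ) := by
    rw [hA, mul_apply_eq_comp, ContinuousLinearMap.star_eq_adjoint,
      ContinuousLinearMap.adjoint_inner_right, inner_self_eq_norm_sq_to_K]
    push_cast; rfl
  rw [← h2, h1]
  exact hAv

end Pool.Agent.Lib.MP_fd02da_an
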