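import Mathlib

set_option autoImplicit false

namespace Pool.Agent.Lib.MP_fd02da_an

open scoped ENNReal

universe v
variable {H : Type v} [NormedAddCommGroup H] [InnerProductSpace ℂ H] [CompleteSpace H]

/-- An orthonormal basis of the Hilbert space `H`, chosen once and for all
(as a set of vectors). -/
noncomputable def onbSet (H : Type v) [NormedAddCommGroup H] [InnerProductSpace ℂ H]
    [CompleteSpace H] : Set H := (exists_hilbertBasis ℂ H).choose

/-- The trace of a positive operator `A`: the sum `∑ ⟨A e, e⟩` over an orthonormal basis of `H`,
an element of `[0, ∞]`. (The value does not depend on the basis.) -/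
noncomputable def posTrace (A : H →L[ℂ] H) : ℝ≥0∞ :=
  ∑' e : onbSet H, ENNReal.ofReal (RCLike.re (inner ℂ (e : H) (A e)))

/-- `trace (a⋆ a) ^ (p / 2)`, where the power is taken in the sense of the continuous functional
calculus for the positive operator `a⋆ a`. -/
noncomputable def schattenTrace (p : ℝ) (a : H →L[ℂ] H) : ℝ≥0∞ :=
  posTrace ((star a * a) ^ (p / 2))

end Pool.Agent.Lib.MP_fd02da_an
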