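import Mathlib
import Pool.Agent.Lib.MP_fd02da_an.Defs
import Pool.Agent.Lib.MP_fd02da_an.Basis

set_option autoImplicit false
set_option linter.unusedSectionVars false

namespace Pool.Agent.Lib.MP_fd02da_an

open Filter Topology Module.End
open scoped ENNReal

universe v
variable {H : Type v} [NormedAddCommGroup H] [InnerProductSpace ℂ H] [CompleteSpace H]

theorem parseval {ι : Type*} (u : HilbertBasis ι ℂ H) (x : H) :
    ∑' i, ENNReal.ofReal (‖inner ℂ (u i) x‖ ^ 2) = ENNReal.ofReal (‖x‖ ^ 2) := by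
  have h1 := u.hasSum_inner_mul_inner x x
  have h2 : ∀ i, inner ℂ x (u i) * inner ℂ (u i) x = ((‖inner ℂ (u i) x‖ ^ 2 : ℝ) : ℂ) := by
    intro i
    rw [← inner_conj_symm x (u i), RCLike.conj_mul]
    push_cast; rfl
  have h3 : inner ℂ x x = ((‖x‖ ^ 2 : ℝ) : ℂ) := by
    rw [inner_self_eq_norm_sq_to_K]; push_cast; rfl
  simp only [h2, h3] at h1
  rw [Complex.hasSum_ofReal] at h1
  rw [← h1.tsum_eq, ENNReal.ofReal_tsum_of_nonneg (fun i => by positivity) h1.summable]

/-- Trace of a self-adjoint operator that is diagonal in a Hilbert basis with nonnegative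
eigenvalues. -/
theorem posTrace_eq {ι : Type*} (B : H →L[ℂ] H) (hB : IsSelfAdjoint B) (u : HilbertBasis ι ℂ H)
    (s : ι → ℝ) (hs : ∀ i, 0 ≤ s i) (h : ∀ i, B (u i) = ((s i : ℝ) : ℂ) • u i) :
    posTrace B = ∑' i, ENNReal.ofReal (s i) := by
  obtain ⟨b, hb⟩ := (exists_hilbertBasis ℂ H).choose_spec
  have hquad : ∀ x : H, ENNReal.ofReal (RCLike.re (inner ℂ x (B x)))
      = ∑' i, ENNReal.ofReal (s i) * ENNReal.ofReal (‖inner ℂ (u i) x‖ ^ 2) := by
    intro x
    have h1 := u.hasSum_inner_mul_inner x (B x)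
    have h2 : ∀ i, inner ℂ x (u i) * inner ℂ (u i) (B x)
        = ((s i * ‖inner ℂ (u i) x‖ ^ 2 : ℝ) : ℂ) := by
      intro i
      have h3 : inner ℂ (u i) (B x) = (s i : ℂ) * inner ℂ (u i) x := by
        have h4 : inner ℂ (B (u i)) x = inner ℂ (u i) (B x) := hB.isSymmetric (u i) x
        rw [← h4, h i, inner_smul_left]
        simp
      rw [h3, ← inner_conj_symm x (u i), mul_left_comm, RCLike.conj_mul]
      push_cast; rfl
    simp only [h2] at h1
    have h4 := (Complex.hasSum_re h1)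
    simp only [Complex.ofReal_re] at h4
    have h5 : RCLike.re (inner ℂ x (B x)) = (inner ℂ x (B x)).re := rfl
    rw [h5, ← h4.tsum_eq, ENNReal.ofReal_tsum_of_nonneg (fun i => mul_nonneg (hs i) (by positivity))
      h4.summable]
    refine tsum_congr fun i => ?_
    rw [ENNReal.ofReal_mul (hs i)]
  rw [posTrace]
  simp only [hquad]
  rw [ENNReal.tsum_comm]
  refine tsum_congr fun i => ?_
  rw [ENNReal.tsum_mul_left]
  have h6 := parseval b (u i)
  have h7 : ∀ e : onbSet H, ‖inner ℂ (u i) (e : H)‖ = ‖inner ℂ (b e) (u i)‖ := by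
    intro e
    rw [hb, ← inner_conj_symm (u i) (e : H), RCLike.norm_conj]
  simp only [h7]
  rw [show (∑' e : onbSet H, ENNReal.ofReal (‖inner ℂ (b e) (u i)‖ ^ 2))
    = ENNReal.ofReal (‖u i‖ ^ 2) from h6, u.orthonormal.1 i]
  simp

theorem schattenTrace_eq (p : ℝ) (hp : 0 < p) {ι : Type v} (a : H →L[ℂ] H)
    (u : HilbertBasis ι ℂ H) (hu : IsSing a u) :
    schattenTrace p a = ∑' i, ENNReal.ofReal (‖a (u i)‖ ^ p) := by
  have hpos : (0 : H →L[ℂ] H) ≤ star a * a := star_mul_self_nonneg a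
  have hsa : IsSelfAdjoint (star a * a) := IsSelfAdjoint.star_mul_self a
  rw [schattenTrace]
  apply posTrace_eq _ _ u _ (fun i => by positivity)
  · intro i
    rw [CFC.rpow_eq_cfc_real hpos]
    have h1 : (star a * a) (u i) = ((‖a (u i)‖ ^ 2 : ℝ) : ℂ) • u i := by
      rw [mul_apply_eq_comp]; exact hu i
    rw [cfc_apply_eigen (star a * a) hsa (‖a (u i)‖ ^ 2) (u i) h1 (fun x => x ^ (p / 2))
      (by
        apply ContinuousOn.rpow_const continuousOn_id
        intro x _
        right; linarith)]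
    congr 2
    rw [← Real.rpow_natCast, ← Real.rpow_mul (norm_nonneg _)]
    congr 1
    push_cast; ring
  · exact IsSelfAdjoint.of_nonneg CFC.rpow_nonneg

end Pool.Agent.Lib.MP_fd02da_an
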