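import Mathlib
import Pool.Agent.Lib.MP_fd02da_an.Trace

set_option autoImplicit false
set_option linter.unusedSectionVars false

namespace Pool.Agent.Lib.MP_fd02da_an

open Filter Topology Module.End
open scoped ENNReal

universe v
variable {H : Type v} [NormedAddCommGroup H] [InnerProductSpace ℂ H] [CompleteSpace H]

theorem jensen_finset {ι : Type*} (F : Finset ι) (w z : ι → ℝ≥0∞) (hw : ∑ i ∈ F, w i ≤ 1)
    (p : ℝ) (hp : 1 ≤ p) : (∑ i ∈ F, w i * z i) ^ p ≤ ∑ i ∈ F, w i * (z i) ^ p := by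
  classical
  have hp0 : 0 < p := by linarith
  let w' : Option ι → ℝ≥0∞ := fun o => o.elim (1 - ∑ i ∈ F, w i) w
  let z' : Option ι → ℝ≥0∞ := fun o => o.elim 0 z
  have hsum : ∑ i ∈ Finset.insertNone F, w' i = 1 := by
    rw [Finset.sum_insertNone]
    simp only [w', Option.elim]
    exact tsub_add_cancel_of_le hw
  have h := ENNReal.rpow_arith_mean_le_arith_mean_rpow (Finset.insertNone F) w' z' hsum hp
  rw [Finset.sum_insertNone, Finset.sum_insertNone] at h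
  simp only [w', z', Option.elim, mul_zero, zero_add, ENNReal.zero_rpow_of_pos hp0] at h
  exact h

theorem jensen_tsum {ι : Type*} (w z : ι → ℝ≥0∞) (hw : ∑' i, w i ≤ 1)
    (p : ℝ) (hp : 1 ≤ p) : (∑' i, w i * z i) ^ p ≤ ∑' i, w i * (z i) ^ p := by
  have hp0 : 0 < p := by linarith
  have h1 : ∑' i, w i * z i ≤ (∑' i, w i * (z i) ^ p) ^ p⁻¹ := by
    rw [ENNReal.tsum_eq_iSup_sum]
    refine iSup_le fun F => ?_
    rw [ENNReal.le_rpow_inv_iff hp0]
    exact (jensen_finset F w z ((ENNReal.sum_le_tsum F).trans hw) p hp).trans (ENNReal.sum_le_tsum F)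
  rwa [ENNReal.le_rpow_inv_iff hp0] at h1

/-- families satisfying the Bessel inequality -/
def Bessel {κ : Type*} (e : κ → H) : Prop :=
  ∀ (F : Finset κ) (x : H), ∑ i ∈ F, ‖inner ℂ (e i) x‖ ^ 2 ≤ ‖x‖ ^ 2

theorem bessel_of_orthonormal {κ : Type*} (e : κ → H) (he : Orthonormal ℂ e) : Bessel e :=
  fun _ x => he.sum_inner_products_le x

theorem Bessel.norm_le {κ : Type*} {e : κ → H} (he : Bessel e) (i : κ) : ‖e i‖ ≤ 1 := by
  have h := he {i} (e i)
  rw [Finset.sum_singleton, inner_self_eq_norm_sq_to_K] at h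
  have h2 : ‖((‖e i‖ : ℂ)) ^ 2‖ = ‖e i‖ ^ 2 := by
    rw [norm_pow, Complex.norm_real, norm_norm]
  have h3 : ‖((‖e i‖ : ℂ)) ^ 2‖ ^ 2 ≤ ‖e i‖ ^ 2 := h
  rw [h2] at h3
  by_contra hcon
  rw [not_le] at hcon
  have h4 : 1 < ‖e i‖ ^ 2 := by nlinarith
  nlinarith

theorem bessel_of_orthZero {κ : Type*} (e : κ → H) (h1 : ∀ i, e i = 0 ∨ ‖e i‖ = 1)
    (h2 : ∀ i j, i ≠ j → inner ℂ (e i) (e j) = 0) : Bessel e := by
  classical
  intro F x
  have horth : Orthonormal ℂ (fun j : {i // e i ≠ 0} => e j) := by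
    constructor
    · intro j
      rcases h1 j with h | h
      · exact absurd h j.2
      · exact h
    · intro i j hij
      exact h2 i j (fun h => hij (Subtype.ext h))
  have h3 : ∑ i ∈ F, ‖inner ℂ (e i) x‖ ^ 2 = ∑ i ∈ F with e i ≠ 0, ‖inner ℂ (e i) x‖ ^ 2 := by
    rw [Finset.sum_filter_of_ne]
    intro i _ hi h0
    apply hi
    rw [h0, inner_zero_left]; simp
  rw [h3, ← Finset.sum_subtype_eq_sum_filter]
  exact horth.sum_inner_products_le x

theorem Bessel.tsum_le {κ : Type*} {e : κ → H} (he : Bessel e) (x : H) :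
    ∑' i, ENNReal.ofReal (‖inner ℂ (e i) x‖ ^ 2) ≤ ENNReal.ofReal (‖x‖ ^ 2) := by
  rw [ENNReal.tsum_eq_iSup_sum]
  refine iSup_le fun F => ?_
  rw [← ENNReal.ofReal_sum_of_nonneg (fun i _ => by positivity)]
  exact ENNReal.ofReal_le_ofReal (he F x)

/-- left singular vectors (or `0`) -/
noncomputable def vv {ι : Type v} (a : H →L[ℂ] H) (u : HilbertBasis ι ℂ H) (n : ι) : H :=
  ((‖a (u n)‖⁻¹ : ℝ) : ℂ) • a (u n)

theorem vv_spec {ι : Type v} (a : H →L[ℂ] H) (u : HilbertBasis ι ℂ H) (n : ι) :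
    a (u n) = ((‖a (u n)‖ : ℝ) : ℂ) • vv a u n := by
  by_cases h : ‖a (u n)‖ = 0
  · rw [norm_eq_zero] at h
    simp [h]
  · rw [vv, smul_smul, ← Complex.ofReal_mul, mul_inv_cancel₀ h]
    simp

theorem vv_orthZero {ι : Type v} (a : H →L[ℂ] H) (u : HilbertBasis ι ℂ H) (hu : IsSing a u) :
    (∀ i, vv a u i = 0 ∨ ‖vv a u i‖ = 1) ∧
      (∀ i j, i ≠ j → inner ℂ (vv a u i) (vv a u j) = (0 : ℂ)) := by
  constructor
  · intro i
    by_cases h : ‖a (u i)‖ = 0
    · left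
      rw [norm_eq_zero] at h
      simp [vv, h]
    · right
      rw [vv, norm_smul, Complex.norm_real, norm_inv, norm_norm, inv_mul_cancel₀ h]
  · intro i j hij
    rw [vv, vv, inner_smul_left, inner_smul_right]
    have h1 : inner ℂ (a (u i)) (a (u j)) = 0 := by
      rw [← ContinuousLinearMap.adjoint_inner_right, ← ContinuousLinearMap.star_eq_adjoint, hu j,
        inner_smul_right, u.orthonormal.2 hij, mul_zero]
    rw [h1]; simp

theorem vv_bessel {ι : Type v} (a : H →L[ℂ] H) (u : HilbertBasis ι ℂ H) (hu : IsSing a u) :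
    Bessel (vv a u) :=
  bessel_of_orthZero _ (vv_orthZero a u hu).1 (vv_orthZero a u hu).2

theorem vv_inner {ι : Type v} (a : H →L[ℂ] H) (u : HilbertBasis ι ℂ H) (n : ι) :
    inner ℂ (vv a u n) (a (u n)) = ((‖a (u n)‖ : ℝ) : ℂ) := by
  by_cases h : ‖a (u n)‖ = 0
  · rw [norm_eq_zero] at h
    simp [h]
  · rw [vv, inner_smul_left, inner_self_eq_norm_sq_to_K, Complex.conj_ofReal]
    have : ((‖a (u n)‖ : ℝ) : ℂ) ≠ 0 := by exact_mod_cast h
    push_cast
    have h2 : ((RCLike.ofReal ‖a (u n)‖ : ℂ)) = ((‖a (u n)‖ : ℝ) : ℂ) := rfl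
    rw [h2]
    field_simp

/-- The weights. -/
theorem inner_le_weights {ι : Type v} (a : H →L[ℂ] H) (u : HilbertBasis ι ℂ H) (e f : H) :
    ENNReal.ofReal ‖inner ℂ f (a e)‖ ≤
      ∑' n, ((ENNReal.ofReal (‖inner ℂ (u n) e‖ ^ 2) + ENNReal.ofReal (‖inner ℂ (vv a u n) f‖ ^ 2)) / 2)
        * ENNReal.ofReal ‖a (u n)‖ := by
  have h1 := u.hasSum_repr e
  have h2 := (h1.mapL a)
  have h3 := h2.mapL (innerSL ℂ f)
  have h4 : ∀ n, (innerSL ℂ f) (a ((u.repr e) n • u n))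
      = inner ℂ (u n) e * (((‖a (u n)‖ : ℝ) : ℂ) * inner ℂ f (vv a u n)) := by
    intro n
    rw [map_smul, map_smul, innerSL_apply_apply, u.repr_apply_apply, smul_eq_mul]
    congr 1
    conv_lhs => rw [vv_spec a u n]
    rw [inner_smul_right]
  simp only [h4, innerSL_apply_apply] at h3
  rw [← h3.tsum_eq]
  rw [ofReal_norm]
  refine enorm_tsum_le_tsum_enorm.trans ?_
  refine ENNReal.tsum_le_tsum fun n => ?_
  rw [← ofReal_norm, norm_mul, norm_mul, Complex.norm_real, norm_norm]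
  have h5 : ‖inner ℂ f (vv a u n)‖ = ‖inner ℂ (vv a u n) f‖ := norm_inner_symm _ _
  rw [h5]
  rw [← ENNReal.ofReal_add (by positivity) (by positivity)]
  rw [show (2 : ℝ≥0∞) = ENNReal.ofReal 2 by simp, ← ENNReal.ofReal_div_of_pos (by norm_num),
    ← ENNReal.ofReal_mul (by positivity)]
  apply ENNReal.ofReal_le_ofReal
  have h6 : ‖inner ℂ (u n) e‖ * ‖inner ℂ (vv a u n) f‖
      ≤ (‖inner ℂ (u n) e‖ ^ 2 + ‖inner ℂ (vv a u n) f‖ ^ 2) / 2 := by
    nlinarith [sq_nonneg (‖inner ℂ (u n) e‖ - ‖inner ℂ (vv a u n) f‖)]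
  calc ‖inner ℂ (u n) e‖ * (‖a (u n)‖ * ‖inner ℂ (vv a u n) f‖)
      = (‖inner ℂ (u n) e‖ * ‖inner ℂ (vv a u n) f‖) * ‖a (u n)‖ := by ring
    _ ≤ _ := mul_le_mul_of_nonneg_right h6 (norm_nonneg _)

/-- Upper estimate: any pair of Bessel families tests the Schatten trace from below. -/
theorem sum_inner_le {ι : Type v} (p : ℝ) (hp : 1 ≤ p) (a : H →L[ℂ] H) (u : HilbertBasis ι ℂ H)
    (hu : IsSing a u) {κ : Type*} (e f : κ → H) (he : Bessel e) (hf : Bessel f) (F : Finset κ) :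
    ∑ i ∈ F, (ENNReal.ofReal ‖inner ℂ (f i) (a (e i))‖) ^ p ≤ schattenTrace p a := by
  have hp0 : 0 < p := by linarith
  have hv := vv_bessel a u hu
  have hue : Bessel u := bessel_of_orthonormal u u.orthonormal
  set w : κ → ι → ℝ≥0∞ := fun i n =>
    (ENNReal.ofReal (‖inner ℂ (u n) (e i)‖ ^ 2) + ENNReal.ofReal (‖inner ℂ (vv a u n) (f i)‖ ^ 2)) / 2
    with hw
  have hw1 : ∀ i, ∑' n, w i n ≤ 1 := by
    intro i
    simp only [hw]
    simp_rw [ENNReal.div_eq_inv_mul]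
    rw [ENNReal.tsum_mul_left, ENNReal.tsum_add]
    have h1 : ∑' n, ENNReal.ofReal (‖inner ℂ (u n) (e i)‖ ^ 2) ≤ 1 := by
      refine (hue.tsum_le (e i)).trans ?_
      rw [ENNReal.ofReal_le_one]
      have := he.norm_le i
      have h0 := norm_nonneg (e i)
      nlinarith
    have h2 : ∑' n, ENNReal.ofReal (‖inner ℂ (vv a u n) (f i)‖ ^ 2) ≤ 1 := by
      refine (hv.tsum_le (f i)).trans ?_
      rw [ENNReal.ofReal_le_one]
      have := hf.norm_le i
      have h0 := norm_nonneg (f i)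
      nlinarith
    calc (2 : ℝ≥0∞)⁻¹ * (∑' n, ENNReal.ofReal (‖inner ℂ (u n) (e i)‖ ^ 2)
          + ∑' n, ENNReal.ofReal (‖inner ℂ (vv a u n) (f i)‖ ^ 2)) ≤ (2 : ℝ≥0∞)⁻¹ * (1 + 1) := by
          gcongr
      _ = 1 := by
          rw [one_add_one_eq_two]
          exact ENNReal.inv_mul_cancel (by norm_num) (by norm_num)
  have hw2 : ∀ n, ∑ i ∈ F, w i n ≤ 1 := by
    intro n
    simp only [hw]
    simp_rw [ENNReal.div_eq_inv_mul]
    rw [← Finset.mul_sum, Finset.sum_add_distrib]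
    have h1 : ∑ i ∈ F, ENNReal.ofReal (‖inner ℂ (u n) (e i)‖ ^ 2) ≤ 1 := by
      rw [← ENNReal.ofReal_sum_of_nonneg (fun i _ => by positivity), ENNReal.ofReal_le_one]
      have := he F (u n)
      rw [u.orthonormal.1 n] at this
      simp_rw [norm_inner_symm (u n)]
      linarith
    have h2 : ∑ i ∈ F, ENNReal.ofReal (‖inner ℂ (vv a u n) (f i)‖ ^ 2) ≤ 1 := by
      rw [← ENNReal.ofReal_sum_of_nonneg (fun i _ => by positivity), ENNReal.ofReal_le_one]
      have h3 := hf F (vv a u n)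
      have h4 := hv.norm_le n
      have h0 := norm_nonneg (vv a u n)
      simp_rw [norm_inner_symm (vv a u n)]
      nlinarith
    calc (2 : ℝ≥0∞)⁻¹ * (∑ i ∈ F, ENNReal.ofReal (‖inner ℂ (u n) (e i)‖ ^ 2)
          + ∑ i ∈ F, ENNReal.ofReal (‖inner ℂ (vv a u n) (f i)‖ ^ 2)) ≤ (2 : ℝ≥0∞)⁻¹ * (1 + 1) := by
          gcongr
      _ = 1 := by
          rw [one_add_one_eq_two]
          exact ENNReal.inv_mul_cancel (by norm_num) (by norm_num)
  calc ∑ i ∈ F, (ENNReal.ofReal ‖inner ℂ (f i) (a (e i))‖) ^ p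
      ≤ ∑ i ∈ F, (∑' n, w i n * ENNReal.ofReal ‖a (u n)‖) ^ p := by
        refine Finset.sum_le_sum fun i _ => ?_
        exact ENNReal.rpow_le_rpow (inner_le_weights a u (e i) (f i)) hp0.le
    _ ≤ ∑ i ∈ F, ∑' n, w i n * (ENNReal.ofReal ‖a (u n)‖) ^ p := by
        refine Finset.sum_le_sum fun i _ => ?_
        exact jensen_tsum _ _ (hw1 i) p hp
    _ = ∑' n, ∑ i ∈ F, w i n * (ENNReal.ofReal ‖a (u n)‖) ^ p := by
        rw [← Summable.tsum_finsetSum (fun i _ => ENNReal.summable)]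
    _ ≤ ∑' n, (ENNReal.ofReal ‖a (u n)‖) ^ p := by
        refine ENNReal.tsum_le_tsum fun n => ?_
        rw [← Finset.sum_mul]
        calc (∑ i ∈ F, w i n) * (ENNReal.ofReal ‖a (u n)‖) ^ p
            ≤ 1 * (ENNReal.ofReal ‖a (u n)‖) ^ p := by gcongr; exact hw2 n
          _ = _ := one_mul _
    _ = schattenTrace p a := by
        rw [schattenTrace_eq p hp0 a u hu]
        refine tsum_congr fun n => ?_
        rw [ENNReal.ofReal_rpow_of_nonneg (norm_nonneg _) hp0.le]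

end Pool.Agent.Lib.MP_fd02da_an
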