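import Mathlib
import Pool.Agent.Lib.MP_fd02da_an.Key

set_option autoImplicit false
set_option linter.unusedSectionVars false

namespace Pool.Agent.Lib.MP_fd02da_an

open Filter Topology Module.End
open scoped ENNReal

universe v
variable {H : Type v} [NormedAddCommGroup H] [InnerProductSpace ℂ H] [CompleteSpace H]

theorem schattenTrace_eq' (p : ℝ) (hp : 0 < p) {ι : Type v} (a : H →L[ℂ] H)
    (u : HilbertBasis ι ℂ H) (hu : IsSing a u) :
    schattenTrace p a = ∑' i, (ENNReal.ofReal ‖inner ℂ (vv a u i) (a (u i))‖) ^ p := by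
  rw [schattenTrace_eq p hp a u hu]
  refine tsum_congr fun i => ?_
  rw [vv_inner, Complex.norm_real, norm_norm, ENNReal.ofReal_rpow_of_nonneg (norm_nonneg _) hp.le]

/-- triangle inequality in the form used for the norm -/
theorem schatten_add (p : ℝ) (hp : 1 ≤ p) (a b : H →L[ℂ] H) (ha : IsCompactOperator a)
    (hb : IsCompactOperator b) :
    (schattenTrace p (a + b)) ^ p⁻¹ ≤ (schattenTrace p a) ^ p⁻¹ + (schattenTrace p b) ^ p⁻¹ := by
  have hp0 : 0 < p := by linarith
  obtain ⟨ι, u, hu⟩ := exists_sing (a + b) (ha.add hb)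
  obtain ⟨ιa, ua, hua⟩ := exists_sing a ha
  obtain ⟨ιb, ub, hub⟩ := exists_sing b hb
  rw [ENNReal.rpow_inv_le_iff hp0, schattenTrace_eq' p hp0 (a + b) u hu, ENNReal.tsum_eq_iSup_sum]
  refine iSup_le fun F => ?_
  rw [← ENNReal.rpow_inv_le_iff hp0]
  have hv := vv_bessel (a + b) u hu
  have hue : Bessel u := bessel_of_orthonormal u u.orthonormal
  have h1 := sum_inner_le p hp a ua hua u (vv (a + b) u) hue hv F
  have h2 := sum_inner_le p hp b ub hub u (vv (a + b) u) hue hv F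
  have h3 := ENNReal.Lp_add_le F (fun i => ENNReal.ofReal ‖inner ℂ (vv (a + b) u i) (a (u i))‖)
    (fun i => ENNReal.ofReal ‖inner ℂ (vv (a + b) u i) (b (u i))‖) hp
  rw [one_div] at h3
  calc (∑ i ∈ F, (ENNReal.ofReal ‖inner ℂ (vv (a + b) u i) ((a + b) (u i))‖) ^ p) ^ p⁻¹
      ≤ (∑ i ∈ F, (ENNReal.ofReal ‖inner ℂ (vv (a + b) u i) (a (u i))‖
          + ENNReal.ofReal ‖inner ℂ (vv (a + b) u i) (b (u i))‖) ^ p) ^ p⁻¹ := by
        apply ENNReal.rpow_le_rpow _ (by positivity)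
        refine Finset.sum_le_sum fun i _ => ?_
        apply ENNReal.rpow_le_rpow _ hp0.le
        rw [← ENNReal.ofReal_add (norm_nonneg _) (norm_nonneg _)]
        apply ENNReal.ofReal_le_ofReal
        rw [add_apply, inner_add_right]
        exact norm_add_le _ _
    _ ≤ _ := h3
    _ ≤ _ := by
        apply add_le_add
        · exact ENNReal.rpow_le_rpow h1 (by positivity)
        · exact ENNReal.rpow_le_rpow h2 (by positivity)

theorem isSing_smul {ι : Type v} (c : ℂ) (a : H →L[ℂ] H) (u : HilbertBasis ι ℂ H)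
    (hu : IsSing a u) : IsSing (c • a) u := by
  intro i
  have h1 : (star (c • a)) ((c • a) (u i)) = (((‖c‖ ^ 2 : ℝ) : ℂ)) • (star a) (a (u i)) := by
    rw [star_smul, smul_apply, smul_apply, map_smul, smul_smul]
    congr 1
    rw [Complex.star_def, RCLike.conj_mul]
    push_cast; rfl
  rw [h1, hu i, smul_smul]
  congr 1
  rw [smul_apply, norm_smul, mul_pow]
  push_cast; rfl

theorem schatten_smul (p : ℝ) (hp : 1 ≤ p) (c : ℂ) (a : H →L[ℂ] H) (ha : IsCompactOperator a) :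
    (schattenTrace p (c • a)) = (ENNReal.ofReal (‖c‖)) ^ p * (schattenTrace p a) := by
  have hp0 : 0 < p := by linarith
  obtain ⟨ι, u, hu⟩ := exists_sing a ha
  rw [schattenTrace_eq p hp0 (c • a) u (isSing_smul c a u hu), schattenTrace_eq p hp0 a u hu,
    ← ENNReal.tsum_mul_left]
  refine tsum_congr fun i => ?_
  rw [smul_apply, norm_smul, Real.mul_rpow (norm_nonneg _) (norm_nonneg _),
    ENNReal.ofReal_mul (by positivity), ENNReal.ofReal_rpow_of_nonneg (norm_nonneg _) hp0.le]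

theorem inner_le_schatten (p : ℝ) (hp : 1 ≤ p) (a : H →L[ℂ] H) (ha : IsCompactOperator a)
    (e f : H) (he : ‖e‖ = 1) (hf : ‖f‖ = 1) :
    (ENNReal.ofReal ‖inner ℂ f (a e)‖) ^ p ≤ schattenTrace p a := by
  obtain ⟨ι, u, hu⟩ := exists_sing a ha
  have hb : ∀ x : H, ‖x‖ = 1 → Bessel (fun _ : Unit => x) := by
    intro x hx
    apply bessel_of_orthonormal
    constructor
    · intro _; exact hx
    · intro i j hij; exact absurd (Subsingleton.elim i j) hij
  have h := sum_inner_le p hp a u hu (fun _ : Unit => e) (fun _ : Unit => f) (hb e he) (hb f hf)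
    Finset.univ
  simpa using h

theorem eq_zero_of_schatten (p : ℝ) (hp : 1 ≤ p) (a : H →L[ℂ] H) (ha : IsCompactOperator a)
    (h0 : schattenTrace p a = 0) : a = 0 := by
  have hp0 : 0 < p := by linarith
  ext x
  rw [zero_apply]
  by_cases hx : x = 0
  · rw [hx, map_zero]
  by_contra hax
  have hxn : ‖x‖ ≠ 0 := norm_ne_zero_iff.mpr hx
  have han : ‖a x‖ ≠ 0 := norm_ne_zero_iff.mpr hax
  have h1 := inner_le_schatten p hp a ha (((‖x‖⁻¹ : ℝ) : ℂ) • x) (((‖a x‖⁻¹ : ℝ) : ℂ) • a x)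
    (by rw [norm_smul, Complex.norm_real, norm_inv, norm_norm, inv_mul_cancel₀ hxn])
    (by rw [norm_smul, Complex.norm_real, norm_inv, norm_norm, inv_mul_cancel₀ han])
  rw [h0, nonpos_iff_eq_zero, ENNReal.rpow_eq_zero_iff_of_pos hp0, ENNReal.ofReal_eq_zero] at h1
  have h2 := le_antisymm h1 (norm_nonneg _)
  rw [norm_eq_zero, map_smul, inner_smul_left, inner_smul_right] at h2
  have h3 : inner ℂ (a x) (a x) ≠ 0 := inner_self_ne_zero.mpr hax
  have h4 : ((‖x‖⁻¹ : ℝ) : ℂ) ≠ 0 := by exact_mod_cast inv_ne_zero hxn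
  have h5 : (starRingEnd ℂ) ((‖a x‖⁻¹ : ℝ) : ℂ) ≠ 0 := by
    rw [Complex.conj_ofReal]; exact_mod_cast inv_ne_zero han
  exact (mul_ne_zero h5 (mul_ne_zero h4 h3)) h2

theorem schatten_zero (p : ℝ) (hp : 1 ≤ p) : schattenTrace p (0 : H →L[ℂ] H) = 0 := by
  have hp0 : 0 < p := by linarith
  have h := schatten_smul p hp 0 (0 : H →L[ℂ] H) (isCompactOperator_zero)
  rw [smul_zero, norm_zero, ENNReal.ofReal_zero, ENNReal.zero_rpow_of_pos hp0, zero_mul] at h
  exact h

end Pool.Agent.Lib.MP_fd02da_an
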