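import Mathlib
import Pool.Agent.Lib.MP_fd02da_an.Norm

/-!
The Schatten–von Neumann class `S_p(H)` as a normed space over `ℂ`.
-/

set_option autoImplicit false

namespace Pool.Agent.Lib.MP_fd02da_an

open scoped ENNReal

universe v

/-- The compact operators `a` on `H` with `trace (a⋆ a) ^ (p / 2) < ∞`, as a subspace of the space
of bounded operators. -/
def schattenSubmodule (p : ℝ) [hp : Fact (1 ≤ p)] (H : Type v) [NormedAddCommGroup H]
    [InnerProductSpace ℂ H] [CompleteSpace H] : Submodule ℂ (H →L[ℂ] H) where
  carrier := {a | IsCompactOperator a ∧ schattenTrace p a < ∞}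
  add_mem' := by
    rintro a b ⟨ha, ha'⟩ ⟨hb, hb'⟩
    have hp0 : 0 < p := lt_of_lt_of_le one_pos hp.out
    refine ⟨ha.add hb, ?_⟩
    have h1 := schatten_add p hp.out a b ha hb
    have h2 : (schattenTrace p a) ^ p⁻¹ + (schattenTrace p b) ^ p⁻¹ < ∞ :=
      ENNReal.add_lt_top.mpr ⟨ENNReal.rpow_lt_top_of_nonneg (by positivity) ha'.ne,
        ENNReal.rpow_lt_top_of_nonneg (by positivity) hb'.ne⟩
    exact (ENNReal.rpow_lt_top_iff_of_pos (by positivity)).mp (h1.trans_lt h2)
  zero_mem' := by
    refine ⟨isCompactOperator_zero, ?_⟩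
    rw [schatten_zero p hp.out]
    exact ENNReal.zero_lt_top
  smul_mem' := by
    rintro c a ⟨ha, ha'⟩
    have hp0 : 0 < p := lt_of_lt_of_le one_pos hp.out
    refine ⟨ha.smul c, ?_⟩
    rw [schatten_smul p hp.out c a ha]
    exact ENNReal.mul_lt_top (ENNReal.rpow_lt_top_of_nonneg hp0.le ENNReal.ofReal_ne_top) ha'

/-- The Schatten–von Neumann class `S_p(H)` (a type synonym of `schattenSubmodule p H`, so that it
carries the Schatten norm and not the operator norm). -/
def Schatten (p : ℝ) [Fact (1 ≤ p)] (H : Type v) [NormedAddCommGroup H]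
    [InnerProductSpace ℂ H] [CompleteSpace H] : Type v := schattenSubmodule p H

section
variable {p : ℝ} [hp : Fact (1 ≤ p)] {H : Type v} [NormedAddCommGroup H]
    [InnerProductSpace ℂ H] [CompleteSpace H]

namespace Schatten

noncomputable instance : AddCommGroup (Schatten p H) :=
  inferInstanceAs (AddCommGroup (schattenSubmodule p H))

noncomputable instance : Module ℂ (Schatten p H) :=
  inferInstanceAs (Module ℂ (schattenSubmodule p H))

/-- the operator on `H` underlying an element of `S_p(H)` -/
def op (a : Schatten p H) : H →L[ℂ] H := Subtype.val a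

theorem op_add (a b : Schatten p H) : (a + b).op = a.op + b.op := rfl
theorem op_smul (c : ℂ) (a : Schatten p H) : (c • a).op = c • a.op := rfl
theorem op_zero : (0 : Schatten p H).op = 0 := rfl
theorem op_sub (a b : Schatten p H) : (a - b).op = a.op - b.op := rfl
theorem op_neg (a : Schatten p H) : (-a).op = -a.op := rfl
theorem compact (a : Schatten p H) : IsCompactOperator a.op := a.2.1
theorem finite (a : Schatten p H) : schattenTrace p a.op < ∞ := a.2.2

theorem ext_op {a b : Schatten p H} (h : a.op = b.op) : a = b := Subtype.ext h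

/-- constructor -/
def mk' (a : H →L[ℂ] H) (ha : IsCompactOperator a) (h : schattenTrace p a < ∞) : Schatten p H :=
  ⟨a, ha, h⟩

theorem op_mk' (a : H →L[ℂ] H) (ha : IsCompactOperator a) (h : schattenTrace p a < ∞) :
    (mk' (p := p) a ha h).op = a := rfl

/-- The Schatten norm `‖a‖ = (trace (a⋆ a) ^ (p / 2)) ^ (1 / p)`. -/
noncomputable def nrm (a : Schatten p H) : ℝ := (schattenTrace p a.op).toReal ^ (1 / p)

theorem nrm_eq (a : Schatten p H) : nrm a = ((schattenTrace p a.op) ^ p⁻¹).toReal := by
  rw [nrm, ENNReal.toReal_rpow, one_div]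

theorem nrm_smul (c : ℂ) (a : Schatten p H) : nrm (c • a) = ‖c‖ * nrm a := by
  have hp0 : 0 < p := lt_of_lt_of_le one_pos hp.out
  rw [nrm, nrm, op_smul, schatten_smul p hp.out c a.op a.compact, ENNReal.toReal_mul,
    ← ENNReal.toReal_rpow, ENNReal.toReal_ofReal (norm_nonneg _),
    Real.mul_rpow (by positivity) ENNReal.toReal_nonneg, ← Real.rpow_mul (norm_nonneg _),
    mul_one_div_cancel hp0.ne', Real.rpow_one]

noncomputable instance : NormedAddCommGroup (Schatten p H) :=
  AddGroupNorm.toNormedAddCommGroup
    { toFun := nrm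
      map_zero' := by
        have hp0 : 0 < p := lt_of_lt_of_le one_pos hp.out
        rw [nrm, op_zero, schatten_zero p hp.out, ENNReal.toReal_zero,
          Real.zero_rpow (by positivity)]
      add_le' := by
        intro a b
        have hp0 : 0 < p := lt_of_lt_of_le one_pos hp.out
        rw [nrm_eq, nrm_eq, nrm_eq, op_add]
        have ha := (ENNReal.rpow_lt_top_of_nonneg (x := schattenTrace p a.op)
          (by positivity : 0 ≤ p⁻¹) a.finite.ne).ne
        have hb := (ENNReal.rpow_lt_top_of_nonneg (x := schattenTrace p b.op)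
          (by positivity : 0 ≤ p⁻¹) b.finite.ne).ne
        rw [← ENNReal.toReal_add ha hb]
        exact ENNReal.toReal_mono (ENNReal.add_ne_top.mpr ⟨ha, hb⟩)
          (schatten_add p hp.out a.op b.op a.compact b.compact)
      neg' := by
        intro a
        have h := nrm_smul (-1 : ℂ) a
        rw [neg_one_smul] at h
        simpa using h
      eq_zero_of_map_eq_zero' := by
        intro a ha
        have hp0 : 0 < p := lt_of_lt_of_le one_pos hp.out
        have h1 : nrm a = 0 := ha
        rw [nrm, Real.rpow_eq_zero ENNReal.toReal_nonneg (by positivity),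
          ENNReal.toReal_eq_zero_iff] at h1
        rcases h1 with h1 | h1
        · exact ext_op (eq_zero_of_schatten p hp.out a.op a.compact h1)
        · exact absurd h1 a.finite.ne }

theorem norm_def (a : Schatten p H) : ‖a‖ = (schattenTrace p a.op).toReal ^ (1 / p) := rfl

noncomputable instance : NormedSpace ℂ (Schatten p H) where
  norm_smul_le c a := (nrm_smul c a).le

end Schatten

end

end Pool.Agent.Lib.MP_fd02da_an
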