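import Mathlib
import Pool.Agent.Lib.MP_fd02da_an.Class

set_option autoImplicit false
set_option linter.unusedSectionVars false

namespace Pool.Agent.Lib.MP_fd02da_an

open Filter Topology Module.End
open scoped ENNReal

universe v
variable {H : Type v} [NormedAddCommGroup H] [InnerProductSpace ℂ H] [CompleteSpace H]

/-- the rank one operator `x ↦ ⟪e, x⟫ f` -/
noncomputable def RR (f e : H) : H →L[ℂ] H := (innerSL ℂ e).smulRight f

theorem RR_apply (f e x : H) : RR f e x = inner ℂ e x • f := by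
  simp [RR]

theorem RR_compact (f e : H) : IsCompactOperator (RR f e) := by
  have h1 : IsCompactOperator (innerSL ℂ e : H →L[ℂ] ℂ) :=
    isCompactOperator_of_locallyCompactSpace_dom (innerSL ℂ e)
  have h2 := h1.clm_comp (ContinuousLinearMap.toSpanSingleton ℂ f)
  have h3 : (RR f e : H → H) = (ContinuousLinearMap.toSpanSingleton ℂ f) ∘ (innerSL ℂ e) := by
    ext x
    simp [RR_apply]
  rw [h3]
  exact h2

theorem RR_adjoint (f e : H) : star (RR f e) = RR e f := by
  rw [ContinuousLinearMap.star_eq_adjoint]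
  symm
  rw [ContinuousLinearMap.eq_adjoint_iff]
  intro x y
  rw [RR_apply, RR_apply, inner_smul_left, inner_smul_right, inner_conj_symm]
  ring

/-- two-term diagonal operators -/
theorem schatten_two (p : ℝ) (hp : 1 ≤ p) (α β : ℂ) (e1 e2 f1 f2 : H) (he1 : ‖e1‖ = 1)
    (he2 : ‖e2‖ = 1) (he : inner ℂ e1 e2 = 0) (hf1 : ‖f1‖ = 1) (hf2 : ‖f2‖ = 1)
    (hf : inner ℂ f1 f2 = 0) :
    schattenTrace p (α • RR f1 e1 + β • RR f2 e2)
      = ENNReal.ofReal (‖α‖ ^ p + ‖β‖ ^ p) := by
  classical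
  have hp0 : 0 < p := by linarith
  have he' : inner ℂ e2 e1 = 0 := by rw [← inner_conj_symm, he, map_zero]
  have hf' : inner ℂ f2 f1 = 0 := by rw [← inner_conj_symm, hf, map_zero]
  have hself : ∀ x : H, ‖x‖ = 1 → inner ℂ x x = (1 : ℂ) := by
    intro x hx; rw [inner_self_eq_norm_sq_to_K, hx]; simp
  have hne : e1 ≠ e2 := by
    intro h
    rw [h, hself e2 he2] at he
    exact one_ne_zero he
  have horth : Orthonormal ℂ ((↑) : ({e1, e2} : Set H) → H) := by
    constructor
    · rintro ⟨x, hx⟩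
      have hx2 : x = e1 ∨ x = e2 := by simpa using hx
      change ‖x‖ = 1
      rcases hx2 with hx2 | hx2 <;> rw [hx2]
      · exact he1
      · exact he2
    · rintro ⟨x, hx⟩ ⟨y, hy⟩ hxy
      have hxy' : x ≠ y := fun h => hxy (Subtype.ext h)
      have hx2 : x = e1 ∨ x = e2 := by simpa using hx
      have hy2 : y = e1 ∨ y = e2 := by simpa using hy
      change inner ℂ x y = 0
      rcases hx2 with hx2 | hx2 <;> rcases hy2 with hy2 | hy2
      · exact absurd (hx2.trans hy2.symm) hxy'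
      · rw [hx2, hy2]; exact he
      · rw [hx2, hy2]; exact he'
      · exact absurd (hx2.trans hy2.symm) hxy'
  obtain ⟨w, b, hsub, hb⟩ := horth.exists_hilbertBasis_extension
  have h1w : e1 ∈ w := hsub (by simp)
  have h2w : e2 ∈ w := hsub (by simp)
  set a : H →L[ℂ] H := α • RR f1 e1 + β • RR f2 e2 with ha
  have hax : ∀ x, a x = (α * inner ℂ e1 x) • f1 + (β * inner ℂ e2 x) • f2 := by
    intro x
    rw [ha, add_apply, smul_apply, smul_apply, RR_apply, RR_apply, smul_smul, smul_smul]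
  have hstar : ∀ x, (star a) x = (star α * inner ℂ f1 x) • e1 + (star β * inner ℂ f2 x) • e2 := by
    intro x
    rw [ha, star_add, star_smul, star_smul, RR_adjoint, RR_adjoint, add_apply, smul_apply,
      smul_apply, RR_apply, RR_apply, smul_smul, smul_smul]
  have ha1 : a e1 = α • f1 := by rw [hax, hself e1 he1, he']; simp
  have ha2 : a e2 = β • f2 := by rw [hax, hself e2 he2, he]; simp
  have hother : ∀ x : w, (x : H) ≠ e1 → (x : H) ≠ e2 → a x = 0 := by
    intro x hx1 hx2
    have h3 : inner ℂ e1 (x : H) = 0 := by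
      have := b.orthonormal.2 (i := ⟨e1, h1w⟩) (j := x) (fun h => hx1 (by rw [← h]))
      rw [hb] at this; exact this
    have h4 : inner ℂ e2 (x : H) = 0 := by
      have := b.orthonormal.2 (i := ⟨e2, h2w⟩) (j := x) (fun h => hx2 (by rw [← h]))
      rw [hb] at this; exact this
    rw [hax, h3, h4]; simp
  have hsing : IsSing a b := by
    intro x
    have hbx : b x = (x : H) := by rw [hb]
    rw [hbx]
    by_cases h3 : (x : H) = e1
    · rw [h3, ha1, hstar, inner_smul_right, inner_smul_right, hself f1 hf1, hf', norm_smul, hf1,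
        mul_one, mul_one, mul_zero, mul_zero, zero_smul, add_zero, Complex.star_def,
        RCLike.conj_mul]
      push_cast; rfl
    · by_cases h4 : (x : H) = e2
      · rw [h4, ha2, hstar, inner_smul_right, inner_smul_right, hself f2 hf2, hf, norm_smul, hf2,
          mul_one, mul_one, mul_zero, mul_zero, zero_smul, zero_add, Complex.star_def,
          RCLike.conj_mul]
        push_cast; rfl
      · rw [hother x h3 h4]; simp
  rw [schattenTrace_eq p hp0 a b hsing]
  have hsum : ∑' i : w, ENNReal.ofReal (‖a (b i)‖ ^ p)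
      = ∑ i ∈ ({⟨e1, h1w⟩, ⟨e2, h2w⟩} : Finset w), ENNReal.ofReal (‖a (b i)‖ ^ p) := by
    apply tsum_eq_sum
    intro x hx
    simp only [Finset.mem_insert, Finset.mem_singleton, not_or] at hx
    have h3 : (x : H) ≠ e1 := fun h => hx.1 (Subtype.ext h)
    have h4 : (x : H) ≠ e2 := fun h => hx.2 (Subtype.ext h)
    rw [hb, hother x h3 h4, norm_zero, Real.zero_rpow hp0.ne', ENNReal.ofReal_zero]
  rw [hsum, Finset.sum_pair (fun h => hne (congrArg Subtype.val h)), hb]
  simp only
  rw [ha1, ha2, norm_smul, norm_smul, hf1, hf2, mul_one, mul_one,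
    ENNReal.ofReal_add (by positivity) (by positivity)]

/-- existence of a unit vector orthogonal to a given vector, or of a Hilbert basis vector: we only
need one more orthogonal unit vector -/
theorem exists_orth (hH : ¬ FiniteDimensional ℂ H) (e : H) : ∃ e' : H, ‖e'‖ = 1 ∧ inner ℂ e e' = 0 := by
  have h1 : (Submodule.span ℂ {e})ᗮ ≠ ⊥ := by
    intro h
    have h2 : Submodule.span ℂ {e} = ⊤ := by
      rw [← Submodule.orthogonal_eq_bot_iff]; exact h
    apply hH
    exact ⟨by rw [← h2]; exact Submodule.fg_span_singleton e⟩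
  obtain ⟨x, hx, hx0⟩ := Submodule.exists_mem_ne_zero_of_ne_bot h1
  have hxn : ‖x‖ ≠ 0 := norm_ne_zero_iff.mpr hx0
  refine ⟨((‖x‖⁻¹ : ℝ) : ℂ) • x, ?_, ?_⟩
  · rw [norm_smul, Complex.norm_real, norm_inv, norm_norm, inv_mul_cancel₀ hxn]
  · rw [inner_smul_right]
    rw [Submodule.mem_orthogonal] at hx
    rw [hx e (Submodule.mem_span_singleton_self e), mul_zero]

theorem schatten_RR_unit (hH : ¬ FiniteDimensional ℂ H) (p : ℝ) (hp : 1 ≤ p) (e f : H)
    (he : ‖e‖ = 1) (hf : ‖f‖ = 1) : schattenTrace p (RR f e) = 1 := by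
  have hp0 : 0 < p := by linarith
  obtain ⟨e', he'1, he'2⟩ := exists_orth hH e
  obtain ⟨f', hf'1, hf'2⟩ := exists_orth hH f
  have h := schatten_two p hp 1 0 e e' f f' he he'1 he'2 hf hf'1 hf'2
  rw [one_smul, zero_smul, add_zero, norm_one, norm_zero, Real.one_rpow, Real.zero_rpow hp0.ne',
    add_zero, ENNReal.ofReal_one] at h
  exact h

theorem RR_smul_right (c : ℂ) (f e : H) : RR f (c • e) = (star c) • RR f e := by
  ext x
  rw [smul_apply, RR_apply, RR_apply, inner_smul_left, smul_smul]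
  rfl

theorem RR_smul_left (c : ℂ) (f e : H) : RR (c • f) e = c • RR f e := by
  ext x
  rw [smul_apply, RR_apply, RR_apply, smul_smul, smul_smul, mul_comm]

theorem schatten_RR (hH : ¬ FiniteDimensional ℂ H) (p : ℝ) (hp : 1 ≤ p) (e f : H) :
    schattenTrace p (RR f e) = ENNReal.ofReal ((‖f‖ * ‖e‖) ^ p) := by
  have hp0 : 0 < p := by linarith
  by_cases he : e = 0
  · have : RR f e = 0 := by ext x; rw [RR_apply, he, inner_zero_left, zero_smul, zero_apply]
    rw [this, schatten_zero p hp, he, norm_zero, mul_zero, Real.zero_rpow hp0.ne', ENNReal.ofReal_zero]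
  by_cases hf : f = 0
  · have : RR f e = 0 := by ext x; rw [RR_apply, hf, smul_zero, zero_apply]
    rw [this, schatten_zero p hp, hf, norm_zero, zero_mul, Real.zero_rpow hp0.ne', ENNReal.ofReal_zero]
  have hen : ‖e‖ ≠ 0 := norm_ne_zero_iff.mpr he
  have hfn : ‖f‖ ≠ 0 := norm_ne_zero_iff.mpr hf
  have h1 := schatten_RR_unit hH p hp (((‖e‖⁻¹ : ℝ) : ℂ) • e) (((‖f‖⁻¹ : ℝ) : ℂ) • f)
    (by rw [norm_smul, Complex.norm_real, norm_inv, norm_norm, inv_mul_cancel₀ hen])
    (by rw [norm_smul, Complex.norm_real, norm_inv, norm_norm, inv_mul_cancel₀ hfn])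
  have h2 : RR f e = (((‖f‖ * ‖e‖ : ℝ)) : ℂ) • RR (((‖f‖⁻¹ : ℝ) : ℂ) • f) (((‖e‖⁻¹ : ℝ) : ℂ) • e) := by
    rw [RR_smul_left, RR_smul_right, smul_smul, smul_smul]
    have h3 : ((‖f‖ * ‖e‖ : ℝ) : ℂ) * (((‖f‖⁻¹ : ℝ) : ℂ) * star ((‖e‖⁻¹ : ℝ) : ℂ)) = 1 := by
      rw [Complex.star_def, Complex.conj_ofReal, ← Complex.ofReal_mul, ← Complex.ofReal_mul]
      have : ‖f‖ * ‖e‖ * (‖f‖⁻¹ * ‖e‖⁻¹) = 1 := by field_simp
      rw [this]; rfl
    rw [mul_assoc, h3, one_smul]
  rw [h2, schatten_smul p hp _ _ (RR_compact _ _), h1, mul_one, Complex.norm_real,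
    Real.norm_of_nonneg (by positivity), ENNReal.ofReal_rpow_of_nonneg (by positivity) hp0.le]

end Pool.Agent.Lib.MP_fd02da_an
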