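import Mathlib
import Pool.Agent.Lib.MP_fd02da_an.Rank

set_option autoImplicit false
set_option linter.unusedSectionVars false

namespace Pool.Agent.Lib.MP_fd02da_an

open Filter Topology
open scoped ENNReal

universe v
variable {H : Type v} [NormedAddCommGroup H] [InnerProductSpace ℂ H] [CompleteSpace H]

theorem inner_self_unit (x : H) (hx : ‖x‖ = 1) : inner ℂ x x = (1 : ℂ) := by
  rw [inner_self_eq_norm_sq_to_K, hx]; simp

/-- the compression of `a` to the complements of `e` and `f` -/
noncomputable def cut (a : H →L[ℂ] H) (f e : H) : H →L[ℂ] H :=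
  a - RR f (star a f) - RR (a e) e + (inner ℂ f (a e) : ℂ) • RR f e

theorem cut_apply (a : H →L[ℂ] H) (f e x : H) :
    cut a f e x = a x - (inner ℂ f (a x) : ℂ) • f - (inner ℂ e x : ℂ) • (a e - (inner ℂ f (a e) : ℂ) • f) := by
  have h1 : inner ℂ (star a f) x = (inner ℂ f (a x) : ℂ) := by
    rw [ContinuousLinearMap.star_eq_adjoint, ContinuousLinearMap.adjoint_inner_left]
  rw [cut, add_apply, sub_apply, sub_apply, smul_apply, RR_apply, RR_apply, RR_apply, h1,
    smul_sub, smul_smul, smul_smul, mul_comm (inner ℂ e x : ℂ) (inner ℂ f (a e))]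
  abel

theorem cut_e (a : H →L[ℂ] H) (f e : H) (he : ‖e‖ = 1) : cut a f e e = 0 := by
  rw [cut_apply, inner_self_unit e he, one_smul]
  abel

theorem inner_cut (a : H →L[ℂ] H) (f e : H) (hf : ‖f‖ = 1) (x : H) :
    inner ℂ f (cut a f e x) = (0 : ℂ) := by
  rw [cut_apply, inner_sub_right, inner_sub_right, inner_smul_right, inner_smul_right,
    inner_sub_right, inner_smul_right, inner_self_unit f hf]
  ring

theorem cut_compact (a : H →L[ℂ] H) (ha : IsCompactOperator a) (f e : H) :
    IsCompactOperator (cut a f e) := by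
  unfold cut
  exact ((ha.sub (RR_compact _ _)).sub (RR_compact _ _)).add ((RR_compact _ _).smul _)

theorem schatten_cut (p : ℝ) (hp : 1 ≤ p) (a : H →L[ℂ] H) (ha : IsCompactOperator a) (f e : H)
    (he : ‖e‖ = 1) (hf : ‖f‖ = 1) :
    (ENNReal.ofReal ‖(inner ℂ f (a e) : ℂ)‖) ^ p + schattenTrace p (cut a f e)
      ≤ schattenTrace p a := by
  classical
  have hp0 : 0 < p := by linarith
  obtain ⟨ι, u, hu⟩ := exists_sing (cut a f e) (cut_compact a ha f e)
  obtain ⟨κ, w, hw⟩ := exists_sing a ha
  set c := cut a f e with hc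
  let E : Option ι → H := fun o => o.elim e (fun n => if ‖c (u n)‖ = 0 then 0 else u n)
  let F : Option ι → H := fun o => o.elim f (fun n => vv c u n)
  have horth : ∀ n, ‖c (u n)‖ ≠ 0 → inner ℂ e (u n) = (0 : ℂ) := by
    intro n hn
    have h1 : inner ℂ e ((star c) (c (u n))) = (0 : ℂ) := by
      rw [ContinuousLinearMap.star_eq_adjoint, ContinuousLinearMap.adjoint_inner_right,
        cut_e a f e he, inner_zero_left]
    rw [hu n, inner_smul_right] at h1
    rcases mul_eq_zero.mp h1 with h2 | h2
    · exfalso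
      apply hn
      have h3 : ‖c (u n)‖ ^ 2 = 0 := by exact_mod_cast h2
      exact pow_eq_zero_iff (two_ne_zero) |>.mp h3
    · exact h2
  have hvf : ∀ n, inner ℂ f (vv c u n) = (0 : ℂ) := by
    intro n
    rw [vv, inner_smul_right, inner_cut a f e hf, mul_zero]
  have hE : Bessel E := by
    apply bessel_of_orthZero
    · rintro (_ | n)
      · right; exact he
      · change (if ‖c (u n)‖ = 0 then (0 : H) else u n) = 0 ∨ ‖(if ‖c (u n)‖ = 0 then (0 : H) else u n)‖ = 1
        by_cases h : ‖c (u n)‖ = 0
        · left; rw [if_pos h]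
        · right; rw [if_neg h]; exact u.orthonormal.1 n
    · rintro (_ | n) (_ | m) hnm
      · exact absurd rfl hnm
      · change inner ℂ e (if ‖c (u m)‖ = 0 then (0 : H) else u m) = 0
        by_cases h : ‖c (u m)‖ = 0
        · rw [if_pos h, inner_zero_right]
        · rw [if_neg h]; exact horth m h
      · change inner ℂ (if ‖c (u n)‖ = 0 then (0 : H) else u n) e = 0
        by_cases h : ‖c (u n)‖ = 0
        · rw [if_pos h, inner_zero_left]
        · rw [if_neg h, ← inner_conj_symm, horth n h, map_zero]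
      · change inner ℂ (if ‖c (u n)‖ = 0 then (0 : H) else u n)
          (if ‖c (u m)‖ = 0 then (0 : H) else u m) = 0
        by_cases h : ‖c (u n)‖ = 0
        · rw [if_pos h, inner_zero_left]
        · by_cases h' : ‖c (u m)‖ = 0
          · rw [if_pos h', inner_zero_right]
          · rw [if_neg h, if_neg h']
            exact u.orthonormal.2 (fun hh => hnm (by rw [hh]))
  have hvb := vv_orthZero c u hu
  have hF : Bessel F := by
    apply bessel_of_orthZero
    · rintro (_ | n)
      · right; exact hf
      · exact hvb.1 n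
    · rintro (_ | n) (_ | m) hnm
      · exact absurd rfl hnm
      · exact hvf m
      · change inner ℂ (vv c u n) f = 0
        rw [← inner_conj_symm, hvf n, map_zero]
      · exact hvb.2 n m (fun hh => hnm (by rw [hh]))
  have hval : ∀ n, ‖(inner ℂ (F (some n)) (a (E (some n))) : ℂ)‖ = ‖c (u n)‖ := by
    intro n
    change ‖(inner ℂ (vv c u n) (a (if ‖c (u n)‖ = 0 then (0 : H) else u n)) : ℂ)‖ = _
    by_cases h : ‖c (u n)‖ = 0
    · rw [if_pos h, map_zero, inner_zero_right, norm_zero, h]
    · rw [if_neg h]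
      have h1 : a (u n) = c (u n) + (inner ℂ f (a (u n)) : ℂ) • f := by
        rw [hc, cut_apply, horth n h, zero_smul]
        abel
      rw [h1, inner_add_right, inner_smul_right, vv_inner, ← inner_conj_symm (vv c u n) f, hvf n,
        map_zero, mul_zero, add_zero, Complex.norm_real, norm_norm]
  rw [schattenTrace_eq p hp0 c u hu, ENNReal.tsum_eq_iSup_sum, ENNReal.add_iSup]
  refine iSup_le fun G => ?_
  have h2 := sum_inner_le p hp a w hw E F hE hF (Finset.insertNone G)
  rw [Finset.sum_insertNone] at h2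
  refine le_trans (le_of_eq ?_) h2
  congr 1
  refine Finset.sum_congr rfl fun n _ => ?_
  rw [hval n, ENNReal.ofReal_rpow_of_nonneg (norm_nonneg _) hp0.le]

end Pool.Agent.Lib.MP_fd02da_an
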