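import Mathlib
import Pool.Agent.Lib.MP_fd02da_an.Strong

set_option autoImplicit false
set_option linter.unusedSectionVars false

namespace Pool.Agent.Lib.MP_fd02da_an

open Filter Topology
open scoped ENNReal

universe v
variable {p : ℝ} [hp : Fact (1 ≤ p)] {H : Type v} [NormedAddCommGroup H] [InnerProductSpace ℂ H]
  [CompleteSpace H]

theorem p_pos (p : ℝ) [hp : Fact (1 ≤ p)] : 0 < p := lt_of_lt_of_le one_pos hp.out

theorem norm_le_of_schatten (a : Schatten p H) (c : ℝ) (hc : 0 ≤ c)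
    (h : schattenTrace p a.op ≤ ENNReal.ofReal (c ^ p)) : ‖a‖ ≤ c := by
  have hp0 : 0 < p := p_pos p
  rw [Schatten.norm_def]
  have h1 : (schattenTrace p a.op).toReal ≤ c ^ p :=
    ENNReal.toReal_le_of_le_ofReal (by positivity) h
  calc (schattenTrace p a.op).toReal ^ (1 / p) ≤ (c ^ p) ^ (1 / p) :=
        Real.rpow_le_rpow ENNReal.toReal_nonneg h1 (by positivity)
    _ = c := by rw [← Real.rpow_mul hc, mul_one_div_cancel hp0.ne', Real.rpow_one]

theorem norm_rpow (a : Schatten p H) : ‖a‖ ^ p = (schattenTrace p a.op).toReal := by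
  have hp0 : 0 < p := p_pos p
  rw [Schatten.norm_def, ← Real.rpow_mul ENNReal.toReal_nonneg, one_div_mul_cancel hp0.ne',
    Real.rpow_one]

theorem schattenTrace_eq_norm (a : Schatten p H) :
    schattenTrace p a.op = ENNReal.ofReal (‖a‖ ^ p) := by
  rw [norm_rpow, ENNReal.ofReal_toReal a.finite.ne]

/-- rank one operators as elements of the Schatten class -/
noncomputable def rk1 (p : ℝ) [hp : Fact (1 ≤ p)] (hH : ¬ FiniteDimensional ℂ H) (f e : H) :
    Schatten p H :=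
  Schatten.mk' (RR f e) (RR_compact f e) (by rw [schatten_RR hH p hp.out]; exact ENNReal.ofReal_lt_top)

theorem rk1_op (hH : ¬ FiniteDimensional ℂ H) (f e : H) : (rk1 p hH f e).op = RR f e := rfl

theorem norm_rk1 (hH : ¬ FiniteDimensional ℂ H) (f e : H) : ‖rk1 p hH f e‖ = ‖f‖ * ‖e‖ := by
  have hp0 : 0 < p := p_pos p
  rw [Schatten.norm_def, rk1_op, schatten_RR hH p hp.out, ENNReal.toReal_ofReal (by positivity),
    ← Real.rpow_mul (by positivity), mul_one_div_cancel hp0.ne', Real.rpow_one]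

theorem norm_inner_le_unit (a : Schatten p H) (e f : H) (he : ‖e‖ = 1) (hf : ‖f‖ = 1) :
    ‖(inner ℂ f (a.op e) : ℂ)‖ ≤ ‖a‖ := by
  have hp0 : 0 < p := p_pos p
  have h := inner_le_schatten p hp.out a.op a.compact e f he hf
  rw [schattenTrace_eq_norm, ENNReal.ofReal_rpow_of_nonneg (norm_nonneg _) hp0.le,
    ENNReal.ofReal_le_ofReal_iff (by positivity)] at h
  exact (Real.rpow_le_rpow_iff (norm_nonneg _) (norm_nonneg _) hp0).mp h

theorem norm_inner_le (a : Schatten p H) (e f : H) :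
    ‖(inner ℂ f (a.op e) : ℂ)‖ ≤ ‖a‖ * (‖f‖ * ‖e‖) := by
  by_cases he : e = 0
  · rw [he, map_zero, inner_zero_right, norm_zero]; positivity
  by_cases hf : f = 0
  · rw [hf, inner_zero_left, norm_zero]; positivity
  have hen : ‖e‖ ≠ 0 := norm_ne_zero_iff.mpr he
  have hfn : ‖f‖ ≠ 0 := norm_ne_zero_iff.mpr hf
  have h := norm_inner_le_unit a (((‖e‖⁻¹ : ℝ) : ℂ) • e) (((‖f‖⁻¹ : ℝ) : ℂ) • f)
    (by rw [norm_smul, Complex.norm_real, norm_inv, norm_norm, inv_mul_cancel₀ hen])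
    (by rw [norm_smul, Complex.norm_real, norm_inv, norm_norm, inv_mul_cancel₀ hfn])
  rw [map_smul, inner_smul_left, inner_smul_right, norm_mul, norm_mul, Complex.conj_ofReal,
    Complex.norm_real, Complex.norm_real, norm_inv, norm_inv, norm_norm, norm_norm] at h
  have h2 : ‖f‖⁻¹ * (‖e‖⁻¹ * ‖(inner ℂ f (a.op e) : ℂ)‖) * (‖f‖ * ‖e‖) ≤ ‖a‖ * (‖f‖ * ‖e‖) :=
    mul_le_mul_of_nonneg_right h (by positivity)
  have h3 : ‖f‖⁻¹ * (‖e‖⁻¹ * ‖(inner ℂ f (a.op e) : ℂ)‖) * (‖f‖ * ‖e‖) = ‖(inner ℂ f (a.op e) : ℂ)‖ := by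
    field_simp
  rwa [h3] at h2

theorem norm_op_apply_le (a : Schatten p H) (e : H) : ‖a.op e‖ ≤ ‖a‖ * ‖e‖ := by
  by_cases h0 : ‖a.op e‖ = 0
  · rw [h0]; positivity
  have h := norm_inner_le a e (a.op e)
  rw [inner_self_eq_norm_sq_to_K, norm_pow, RCLike.norm_ofReal, abs_norm] at h
  have hpos : 0 < ‖a.op e‖ := lt_of_le_of_ne (norm_nonneg _) (Ne.symm h0)
  have h2 : ‖a.op e‖ * ‖a.op e‖ ≤ ‖a‖ * ‖e‖ * ‖a.op e‖ := by nlinarith
  exact le_of_mul_le_mul_right h2 hpos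

theorem norm_star_apply_le (a : Schatten p H) (f : H) : ‖(star a.op) f‖ ≤ ‖a‖ * ‖f‖ := by
  by_cases h0 : ‖(star a.op) f‖ = 0
  · rw [h0]; positivity
  have h := norm_inner_le a ((star a.op) f) f
  rw [← ContinuousLinearMap.adjoint_inner_left, ← ContinuousLinearMap.star_eq_adjoint,
    inner_self_eq_norm_sq_to_K, norm_pow, RCLike.norm_ofReal, abs_norm] at h
  have hpos : 0 < ‖(star a.op) f‖ := lt_of_le_of_ne (norm_nonneg _) (Ne.symm h0)
  have h2 : ‖(star a.op) f‖ * ‖(star a.op) f‖ ≤ ‖a‖ * ‖f‖ * ‖(star a.op) f‖ := by nlinarith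
  exact le_of_mul_le_mul_right h2 hpos

/-- Pythagoras -/
theorem norm_sub_proj (x f : H) (hf : ‖f‖ = 1) :
    ‖x - (inner ℂ f x : ℂ) • f‖ ^ 2 = ‖x‖ ^ 2 - ‖(inner ℂ f x : ℂ)‖ ^ 2 := by
  have h1 : inner ℂ (x - (inner ℂ f x : ℂ) • f) ((inner ℂ f x : ℂ) • f) = (0 : ℂ) := by
    rw [inner_sub_left, inner_smul_right, inner_smul_right, inner_smul_left,
      inner_self_unit f hf, mul_one, ← inner_conj_symm x f]
    ring
  have h2 := norm_add_sq_eq_norm_sq_add_norm_sq_of_inner_eq_zero _ _ h1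
  rw [sub_add_cancel, norm_smul, hf, mul_one] at h2
  nlinarith

/-- compression as an element of the Schatten class -/
noncomputable def cutS (a : Schatten p H) (f e : H) (he : ‖e‖ = 1) (hf : ‖f‖ = 1) : Schatten p H :=
  Schatten.mk' (cut a.op f e) (cut_compact a.op a.compact f e)
    (lt_of_le_of_lt (le_trans le_add_self (schatten_cut p hp.out a.op a.compact f e he hf)) a.finite)

theorem norm_cutS (a : Schatten p H) (ha : ‖a‖ ≤ 1) (f e : H) (he : ‖e‖ = 1) (hf : ‖f‖ = 1) :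
    ‖cutS a f e he hf‖ ≤ (1 - ‖(inner ℂ f (a.op e) : ℂ)‖ ^ p) ^ (1 / p) := by
  have hp0 : 0 < p := p_pos p
  have h := schatten_cut p hp.out a.op a.compact f e he hf
  have h1 : schattenTrace p (cut a.op f e) = ENNReal.ofReal (‖cutS a f e he hf‖ ^ p) :=
    schattenTrace_eq_norm (cutS a f e he hf)
  rw [h1, schattenTrace_eq_norm, ENNReal.ofReal_rpow_of_nonneg (norm_nonneg _) hp0.le,
    ← ENNReal.ofReal_add (by positivity) (by positivity),
    ENNReal.ofReal_le_ofReal_iff (by positivity)] at h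
  have h2 : ‖a‖ ^ p ≤ 1 := Real.rpow_le_one (norm_nonneg _) ha hp0.le
  have h3 : ‖cutS a f e he hf‖ ^ p ≤ 1 - ‖(inner ℂ f (a.op e) : ℂ)‖ ^ p := by linarith
  calc ‖cutS a f e he hf‖ = (‖cutS a f e he hf‖ ^ p) ^ (1 / p) := by
        rw [← Real.rpow_mul (norm_nonneg _), mul_one_div_cancel hp0.ne', Real.rpow_one]
    _ ≤ _ := Real.rpow_le_rpow (by positivity) h3 (by positivity)

theorem sub_rk1 (hH : ¬ FiniteDimensional ℂ H) (a : Schatten p H) (f e : H) (he : ‖e‖ = 1)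
    (hf : ‖f‖ = 1) :
    a - rk1 p hH f e = cutS a f e he hf
      + rk1 p hH f ((star a.op) f - (inner ℂ e ((star a.op) f) : ℂ) • e)
      + rk1 p hH (a.op e - (inner ℂ f (a.op e) : ℂ) • f) e
      + ((inner ℂ f (a.op e) : ℂ) - 1) • rk1 p hH f e := by
  apply Schatten.ext_op
  ext x
  have h1 : inner ℂ (star a.op f) x = (inner ℂ f (a.op x) : ℂ) := by
    rw [ContinuousLinearMap.star_eq_adjoint, ContinuousLinearMap.adjoint_inner_left]
  have h2 : inner ℂ e ((star a.op) f) = (inner ℂ (a.op e) f : ℂ) := by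
    rw [ContinuousLinearMap.star_eq_adjoint, ContinuousLinearMap.adjoint_inner_right]
  rw [Schatten.op_sub, Schatten.op_add, Schatten.op_add, Schatten.op_add, Schatten.op_smul,
    rk1_op, rk1_op, rk1_op, sub_apply, add_apply, add_apply, add_apply, smul_apply, RR_apply,
    RR_apply, RR_apply]
  change _ = cut a.op f e x + _ + _ + _
  rw [cut_apply, inner_sub_left, inner_smul_left, h1, h2, inner_conj_symm]
  module

theorem norm_sub_rk1_le (hH : ¬ FiniteDimensional ℂ H) (a : Schatten p H) (ha : ‖a‖ ≤ 1)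
    (f e : H) (he : ‖e‖ = 1) (hf : ‖f‖ = 1) :
    ‖a - rk1 p hH f e‖ ≤ (1 - ‖(inner ℂ f (a.op e) : ℂ)‖ ^ p) ^ (1 / p)
      + Real.sqrt (1 - ‖(inner ℂ f (a.op e) : ℂ)‖ ^ 2)
      + Real.sqrt (1 - ‖(inner ℂ f (a.op e) : ℂ)‖ ^ 2)
      + ‖(inner ℂ f (a.op e) : ℂ) - 1‖ := by
  have h2 : ‖(inner ℂ e ((star a.op) f) : ℂ)‖ = ‖(inner ℂ f (a.op e) : ℂ)‖ := by
    rw [ContinuousLinearMap.star_eq_adjoint, ContinuousLinearMap.adjoint_inner_right,
      ← inner_conj_symm, RCLike.norm_conj]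
  have h3 : ‖a.op e - (inner ℂ f (a.op e) : ℂ) • f‖
      ≤ Real.sqrt (1 - ‖(inner ℂ f (a.op e) : ℂ)‖ ^ 2) := by
    apply Real.le_sqrt_of_sq_le
    rw [norm_sub_proj _ _ hf]
    have h4 : ‖a.op e‖ ≤ 1 := by
      have := norm_op_apply_le a e
      rw [he, mul_one] at this
      exact this.trans ha
    have h5 : ‖a.op e‖ ^ 2 ≤ 1 := by nlinarith [norm_nonneg (a.op e)]
    linarith
  have h4 : ‖(star a.op) f - (inner ℂ e ((star a.op) f) : ℂ) • e‖
      ≤ Real.sqrt (1 - ‖(inner ℂ f (a.op e) : ℂ)‖ ^ 2) := by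
    apply Real.le_sqrt_of_sq_le
    rw [norm_sub_proj _ _ he, h2]
    have h4 : ‖(star a.op) f‖ ≤ 1 := by
      have := norm_star_apply_le a f
      rw [hf, mul_one] at this
      exact this.trans ha
    have h5 : ‖(star a.op) f‖ ^ 2 ≤ 1 := by nlinarith [norm_nonneg ((star a.op) f)]
    linarith
  rw [sub_rk1 hH a f e he hf]
  refine (norm_add_le _ _).trans (add_le_add ((norm_add_le _ _).trans (add_le_add
    ((norm_add_le _ _).trans (add_le_add (norm_cutS a ha f e he hf) ?_)) ?_)) ?_)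
  · rw [norm_rk1, hf, one_mul]; exact h4
  · rw [norm_rk1, he, mul_one]; exact h3
  · rw [norm_smul, norm_rk1, he, hf, mul_one, mul_one]

/-- A bounded net in the unit ball converging weakly to a rank one unit converges in norm. -/
theorem tendsto_rk1 {ι : Type*} (l : Filter ι) (hH : ¬ FiniteDimensional ℂ H) (a : ι → Schatten p H)
    (ha : ∀ i, ‖a i‖ ≤ 1) (f e : H) (he : ‖e‖ = 1) (hf : ‖f‖ = 1)
    (h : Tendsto (fun i => (inner ℂ f ((a i).op e) : ℂ)) l (𝓝 1)) :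
    Tendsto a l (𝓝 (rk1 p hH f e)) := by
  have hp0 : 0 < p := p_pos p
  rw [tendsto_iff_norm_sub_tendsto_zero]
  have hn : Tendsto (fun i => ‖(inner ℂ f ((a i).op e) : ℂ)‖) l (𝓝 1) := by
    have := h.norm
    rwa [norm_one] at this
  have h1 : Tendsto (fun i => (1 - ‖(inner ℂ f ((a i).op e) : ℂ)‖ ^ p) ^ (1 / p)
      + Real.sqrt (1 - ‖(inner ℂ f ((a i).op e) : ℂ)‖ ^ 2)
      + Real.sqrt (1 - ‖(inner ℂ f ((a i).op e) : ℂ)‖ ^ 2)
      + ‖(inner ℂ f ((a i).op e) : ℂ) - 1‖) l (𝓝 (0 + 0 + 0 + 0)) := by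
    have hA : Tendsto (fun i => (1 - ‖(inner ℂ f ((a i).op e) : ℂ)‖ ^ p) ^ (1 / p)) l (𝓝 0) := by
      have h2 : Tendsto (fun i => 1 - ‖(inner ℂ f ((a i).op e) : ℂ)‖ ^ p) l (𝓝 (1 - 1 ^ p)) :=
        tendsto_const_nhds.sub (hn.rpow_const (Or.inr hp0.le))
      rw [Real.one_rpow, sub_self] at h2
      have h3 := h2.rpow_const (p := 1 / p) (Or.inr (by positivity))
      rwa [Real.zero_rpow (by positivity)] at h3
    have hB : Tendsto (fun i => Real.sqrt (1 - ‖(inner ℂ f ((a i).op e) : ℂ)‖ ^ 2)) l (𝓝 0) := by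
      have h2 : Tendsto (fun i => 1 - ‖(inner ℂ f ((a i).op e) : ℂ)‖ ^ 2) l (𝓝 (1 - 1 ^ 2)) :=
        tendsto_const_nhds.sub (hn.pow 2)
      have h3 := h2.sqrt
      simpa using h3
    have hC : Tendsto (fun i => ‖(inner ℂ f ((a i).op e) : ℂ) - 1‖) l (𝓝 0) := by
      have h2 := (h.sub_const 1).norm
      simpa using h2
    exact ((hA.add hB).add hB).add hC
  rw [add_zero, add_zero, add_zero] at h1
  exact squeeze_zero (fun i => norm_nonneg _) (fun i => norm_sub_rk1_le hH (a i) (ha i) f e he hf) h1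

end Pool.Agent.Lib.MP_fd02da_an
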