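import Mathlib
import Pool.Agent.Lib.MP_fd02da_an.Class

set_option autoImplicit false

namespace Pool.Agent.Lib.MP_fd02da_an

open Filter Topology

universe v w

/-- The set `𝒰` of all (not necessarily surjective) linear isometries of a normed space `X`. -/
def Isometries (X : Type v) [NormedAddCommGroup X] [NormedSpace ℂ X] : Set (X →L[ℂ] X) :=
  {U | ∀ a : X, ‖U a‖ = ‖a‖}

/-- `T` is the pw-limit of a net of operators `U` taken from the set `S`: the net is indexed by a
nonempty directed preorder `ι`, and `(U i ^ n x, y) → (T ^ n x, y)` for every `x : X`, every `y` in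
the dual of `X` and every `n ≥ 0`. -/
def IsPwLimit {X : Type v} [NormedAddCommGroup X] [NormedSpace ℂ X] (S : Set (X →L[ℂ] X))
    (T : X →L[ℂ] X) : Prop :=
  ∃ (ι : Type w) (_ : Preorder ι) (_ : IsDirected ι (· ≤ ·)) (_ : Nonempty ι) (U : ι → X →L[ℂ] X),
    (∀ i, U i ∈ S) ∧
      ∀ (n : ℕ) (x : X) (y : StrongDual ℂ X),
        Tendsto (fun i => y ((U i ^ n) x)) atTop (𝓝 (y ((T ^ n) x)))

end Pool.Agent.Lib.MP_fd02da_an
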