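import Mathlib
import Pool.Agent.Lib.MP_fd02da_an.Converge
import Pool.Agent.Lib.MP_fd02da_an.PwDefs

set_option autoImplicit false
set_option linter.unusedSectionVars false

namespace Pool.Agent.Lib.MP_fd02da_an

open Filter Topology
open scoped ENNReal

universe v w
variable {p : ℝ} [hp : Fact (1 ≤ p)] {H : Type v} [NormedAddCommGroup H] [InnerProductSpace ℂ H]
  [CompleteSpace H]

/-- the functional `a ↦ ⟪f, a e⟫` -/
noncomputable def coef (p : ℝ) [hp : Fact (1 ≤ p)] (f e : H) : StrongDual ℂ (Schatten p H) :=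
  LinearMap.mkContinuous
    { toFun := fun a => inner ℂ f (a.op e)
      map_add' := by
        intro a b
        rw [Schatten.op_add, add_apply, inner_add_right]
      map_smul' := by
        intro c a
        rw [Schatten.op_smul, smul_apply, inner_smul_right]
        rfl } (‖f‖ * ‖e‖) (by
      intro a
      rw [mul_comm]
      exact norm_inner_le a e f)

theorem coef_apply (f e : H) (a : Schatten p H) : coef p f e a = inner ℂ f (a.op e) := rfl

theorem not_limit (hH : ¬ FiniteDimensional ℂ H) (T : Schatten p H →L[ℂ] Schatten p H)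
    (X1 X2 : Schatten p H) (f1 e1 f2 e2 : H) (hf1 : ‖f1‖ = 1) (he1 : ‖e1‖ = 1) (hf2 : ‖f2‖ = 1)
    (he2 : ‖e2‖ = 1) (hX1 : ‖X1‖ ≤ 1) (hX2 : ‖X2‖ ≤ 1) (hT1 : T X1 = rk1 p hH f1 e1)
    (hT2 : T X2 = rk1 p hH f2 e2) (hne : ‖X1 + X2‖ ≠ ‖rk1 p hH f1 e1 + rk1 p hH f2 e2‖)
    {ι : Type w} (l : Filter ι) [l.NeBot] (U : ι → Schatten p H →L[ℂ] Schatten p H)
    (hU : ∀ i, U i ∈ Isometries (Schatten p H))
    (h : ∀ (a : Schatten p H) (e f : H),
      Tendsto (fun i => (inner ℂ f ((U i a).op e) : ℂ)) l (𝓝 (inner ℂ f ((T a).op e)))) : False := by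
  apply hne
  have key : ∀ (X : Schatten p H) (f e : H), ‖f‖ = 1 → ‖e‖ = 1 → ‖X‖ ≤ 1 → T X = rk1 p hH f e →
      Tendsto (fun i => U i X) l (𝓝 (rk1 p hH f e)) := by
    intro X f e hf he hX hT
    apply tendsto_rk1 l hH _ (fun i => by rw [hU i X]; exact hX) f e he hf
    have h1 := h X e f
    rw [hT, rk1_op, RR_apply, inner_smul_right, inner_self_unit e he, inner_self_unit f hf,
      one_mul] at h1
    exact h1
  have h3 := ((key X1 f1 e1 hf1 he1 hX1 hT1).add (key X2 f2 e2 hf2 he2 hX2 hT2)).norm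
  have h4 : (fun i => ‖U i X1 + U i X2‖) = fun _ => ‖X1 + X2‖ := by
    funext i
    rw [← map_add, hU i]
  rw [h4] at h3
  exact tendsto_nhds_unique tendsto_const_nhds h3

theorem rk1_smul_add (hH : ¬ FiniteDimensional ℂ H) (α β : ℂ) (f e1 e2 : H) :
    α • rk1 p hH f e1 + β • rk1 p hH f e2 = rk1 p hH f (star α • e1 + star β • e2) := by
  apply Schatten.ext_op
  ext x
  rw [Schatten.op_add, Schatten.op_smul, Schatten.op_smul, rk1_op, rk1_op, rk1_op, add_apply,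
    smul_apply, smul_apply, RR_apply, RR_apply, RR_apply, inner_add_left, inner_smul_left,
    inner_smul_left, smul_smul, smul_smul, ← add_smul]
  simp

theorem norm_two (e1 e2 : H) (he1 : ‖e1‖ = 1) (he2 : ‖e2‖ = 1) (he : inner ℂ e1 e2 = (0 : ℂ))
    (α β : ℂ) : ‖α • e1 + β • e2‖ = Real.sqrt (‖α‖ ^ 2 + ‖β‖ ^ 2) := by
  have h1 : inner ℂ (α • e1) (β • e2) = (0 : ℂ) := by
    rw [inner_smul_left, inner_smul_right, he]; simp
  have h2 := norm_add_sq_eq_norm_sq_add_norm_sq_of_inner_eq_zero _ _ h1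
  rw [norm_smul, norm_smul, he1, he2, mul_one, mul_one] at h2
  rw [← sq, ← sq, ← sq] at h2
  rw [← h2, Real.sqrt_sq (norm_nonneg _)]

/-- norm in a row -/
theorem norm_row (hH : ¬ FiniteDimensional ℂ H) (f e1 e2 : H) (hf : ‖f‖ = 1) (he1 : ‖e1‖ = 1)
    (he2 : ‖e2‖ = 1) (he : inner ℂ e1 e2 = (0 : ℂ)) (α β : ℂ) :
    ‖α • rk1 p hH f e1 + β • rk1 p hH f e2‖ = Real.sqrt (‖α‖ ^ 2 + ‖β‖ ^ 2) := by
  rw [rk1_smul_add, norm_rk1, hf, one_mul, norm_two e1 e2 he1 he2 he, norm_star, norm_star]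

/-- norm on a diagonal -/
theorem norm_diag (hH : ¬ FiniteDimensional ℂ H) (e1 e2 : H) (he1 : ‖e1‖ = 1)
    (he2 : ‖e2‖ = 1) (he : inner ℂ e1 e2 = (0 : ℂ)) (α β : ℂ) :
    ‖α • rk1 p hH e1 e1 + β • rk1 p hH e2 e2‖ = (‖α‖ ^ p + ‖β‖ ^ p) ^ (1 / p) := by
  rw [Schatten.norm_def]
  have h1 : (α • rk1 p hH e1 e1 + β • rk1 p hH e2 e2).op = α • RR e1 e1 + β • RR e2 e2 := rfl
  rw [h1, schatten_two p hp.out α β e1 e2 e1 e2 he1 he2 he he1 he2 he,
    ENNReal.toReal_ofReal (by positivity)]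

/-- the contraction used for `p < 2` -/
noncomputable def T1 (p : ℝ) [hp : Fact (1 ≤ p)] (hH : ¬ FiniteDimensional ℂ H) (e1 e2 : H) :
    Schatten p H →L[ℂ] Schatten p H :=
  (coef p e1 e1).smulRight (rk1 p hH e1 e1) + (coef p e2 e2).smulRight (rk1 p hH e1 e2)

/-- the contraction used for `p > 2` -/
noncomputable def T2 (p : ℝ) [hp : Fact (1 ≤ p)] (hH : ¬ FiniteDimensional ℂ H) (e1 e2 : H) :
    Schatten p H →L[ℂ] Schatten p H :=
  (coef p e1 e1).smulRight (rk1 p hH e1 e1) + (coef p e1 e2).smulRight (rk1 p hH e2 e2)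

theorem T1_apply (hH : ¬ FiniteDimensional ℂ H) (e1 e2 : H) (a : Schatten p H) :
    T1 p hH e1 e2 a = (inner ℂ e1 (a.op e1) : ℂ) • rk1 p hH e1 e1
      + (inner ℂ e2 (a.op e2) : ℂ) • rk1 p hH e1 e2 := rfl

theorem T2_apply (hH : ¬ FiniteDimensional ℂ H) (e1 e2 : H) (a : Schatten p H) :
    T2 p hH e1 e2 a = (inner ℂ e1 (a.op e1) : ℂ) • rk1 p hH e1 e1
      + (inner ℂ e1 (a.op e2) : ℂ) • rk1 p hH e2 e2 := rfl

/-- `ℓ^q ≤ ℓ^p` for two numbers -/
theorem lp_mono (x y : ℝ) (hx : 0 ≤ x) (hy : 0 ≤ y) (r s : ℝ) (hr : 0 < r) (hrs : r ≤ s) :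
    (x ^ s + y ^ s) ^ (1 / s) ≤ (x ^ r + y ^ r) ^ (1 / r) :=
  Real.rpow_add_rpow_le hx hy hr hrs

theorem norm_T1 (hH : ¬ FiniteDimensional ℂ H) (hp2 : p ≤ 2) (e1 e2 : H) (he1 : ‖e1‖ = 1)
    (he2 : ‖e2‖ = 1) (he : inner ℂ e1 e2 = (0 : ℂ)) : ‖T1 p hH e1 e2‖ ≤ 1 := by
  have hp0 : 0 < p := p_pos p
  refine ContinuousLinearMap.opNorm_le_bound _ zero_le_one fun a => ?_
  rw [one_mul, T1_apply, norm_row hH e1 e1 e2 he1 he1 he2 he]
  obtain ⟨ι, u, hu⟩ := exists_sing a.op a.compact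
  have horth : Bessel (fun i : Fin 2 => if i = 0 then e1 else e2) := by
    apply bessel_of_orthZero
    · intro i
      right
      by_cases hi : i = 0
      · rw [if_pos hi]; exact he1
      · rw [if_neg hi]; exact he2
    · intro i j hij
      by_cases hi : i = 0
      · have hj : j ≠ 0 := fun h => hij (by rw [hi, h])
        rw [if_pos hi, if_neg hj]; exact he
      · have hj : j = 0 := by
          fin_cases i
          · exact absurd rfl hi
          · fin_cases j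
            · rfl
            · exact absurd rfl hij
        rw [if_neg hi, if_pos hj, ← inner_conj_symm, he, map_zero]
  have h1 := sum_inner_le p hp.out a.op u hu _ _ horth horth Finset.univ
  rw [Fin.sum_univ_two] at h1
  simp only [if_true, Fin.isValue, one_ne_zero, if_false] at h1
  rw [schattenTrace_eq_norm, ENNReal.ofReal_rpow_of_nonneg (norm_nonneg _) hp0.le,
    ENNReal.ofReal_rpow_of_nonneg (norm_nonneg _) hp0.le,
    ← ENNReal.ofReal_add (by positivity) (by positivity),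
    ENNReal.ofReal_le_ofReal_iff (by positivity)] at h1
  have h2 := lp_mono _ _ (norm_nonneg (inner ℂ e1 (a.op e1) : ℂ))
    (norm_nonneg (inner ℂ e2 (a.op e2) : ℂ)) p 2 hp0 hp2
  rw [Real.rpow_two, Real.rpow_two, ← Real.sqrt_eq_rpow] at h2
  refine h2.trans ?_
  calc _ ≤ (‖a‖ ^ p) ^ (1 / p) := Real.rpow_le_rpow (by positivity) h1 (by positivity)
    _ = ‖a‖ := by rw [← Real.rpow_mul (norm_nonneg _), mul_one_div_cancel hp0.ne', Real.rpow_one]

theorem norm_T2 (hH : ¬ FiniteDimensional ℂ H) (hp2 : 2 ≤ p) (e1 e2 : H) (he1 : ‖e1‖ = 1)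
    (he2 : ‖e2‖ = 1) (he : inner ℂ e1 e2 = (0 : ℂ)) : ‖T2 p hH e1 e2‖ ≤ 1 := by
  have hp0 : 0 < p := p_pos p
  refine ContinuousLinearMap.opNorm_le_bound _ zero_le_one fun a => ?_
  rw [one_mul, T2_apply, norm_diag hH e1 e2 he1 he2 he]
  have h2 := lp_mono _ _ (norm_nonneg (inner ℂ e1 (a.op e1) : ℂ))
    (norm_nonneg (inner ℂ e1 (a.op e2) : ℂ)) 2 p two_pos hp2
  refine h2.trans ?_
  rw [Real.rpow_two, Real.rpow_two, ← Real.sqrt_eq_rpow]
  have hsw : ∀ x : H, ‖(inner ℂ e1 (a.op x) : ℂ)‖ = ‖(inner ℂ x ((star a.op) e1) : ℂ)‖ := by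
    intro x
    rw [ContinuousLinearMap.star_eq_adjoint, ContinuousLinearMap.adjoint_inner_right,
      ← inner_conj_symm, RCLike.norm_conj]
  rw [hsw e1, hsw e2]
  set z := (star a.op) e1 with hz
  have h3 : ‖(inner ℂ e1 z : ℂ)‖ ^ 2 + ‖(inner ℂ e2 z : ℂ)‖ ^ 2 ≤ ‖z‖ ^ 2 := by
    have h4 := norm_sub_proj z e1 he1
    have h5 := norm_sub_proj (z - (inner ℂ e1 z : ℂ) • e1) e2 he2
    have h6 : (inner ℂ e2 (z - (inner ℂ e1 z : ℂ) • e1) : ℂ) = inner ℂ e2 z := by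
      rw [inner_sub_right, inner_smul_right, ← inner_conj_symm e2 e1, he, map_zero, mul_zero,
        sub_zero]
    rw [h6, h4] at h5
    nlinarith [sq_nonneg ‖z - (inner ℂ e1 z : ℂ) • e1 - (inner ℂ e2 z : ℂ) • e2‖]
  have h7 : ‖z‖ ≤ ‖a‖ := by
    have := norm_star_apply_le a e1
    rwa [he1, mul_one] at this
  calc Real.sqrt _ ≤ Real.sqrt (‖z‖ ^ 2) := Real.sqrt_le_sqrt h3
    _ = ‖z‖ := Real.sqrt_sq (norm_nonneg _)
    _ ≤ ‖a‖ := h7

theorem two_rpow_ne (hp2 : p ≠ 2) : (2 : ℝ) ^ (1 / p) ≠ Real.sqrt 2 := by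
  have hp0 : 0 < p := p_pos p
  rw [Real.sqrt_eq_rpow]
  intro h
  have h2 : (1 : ℝ) / p = 1 / 2 := by
    have h3 := congrArg Real.log h
    rw [Real.log_rpow two_pos, Real.log_rpow two_pos] at h3
    exact mul_right_cancel₀ (Real.log_pos one_lt_two).ne' h3
  apply hp2
  field_simp at h2
  linarith

theorem main_aux (hH : ¬ FiniteDimensional ℂ H) (hp2 : p ≠ 2) :
    ∃ T : Schatten p H →L[ℂ] Schatten p H, ‖T‖ ≤ 1 ∧
      ∀ (ι : Type w) (l : Filter ι) (_ : l.NeBot) (U : ι → Schatten p H →L[ℂ] Schatten p H),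
        (∀ i, U i ∈ Isometries (Schatten p H)) →
          ¬ ∀ (a : Schatten p H) (e f : H),
            Tendsto (fun i => (inner ℂ f ((U i a).op e) : ℂ)) l (𝓝 (inner ℂ f ((T a).op e))) := by
  have hp0 : 0 < p := p_pos p
  obtain ⟨e1, he1, -⟩ := exists_orth hH (0 : H)
  obtain ⟨e2, he2, he⟩ := exists_orth hH e1
  have he' : inner ℂ e2 e1 = (0 : ℂ) := by rw [← inner_conj_symm, he, map_zero]
  have hdiag : ‖rk1 p hH e1 e1 + rk1 p hH e2 e2‖ = (2 : ℝ) ^ (1 / p) := by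
    have h := norm_diag (p := p) hH e1 e2 he1 he2 he 1 1
    rw [one_smul, one_smul, norm_one, Real.one_rpow] at h
    rw [h]; norm_num
  have hrow : ‖rk1 p hH e1 e1 + rk1 p hH e1 e2‖ = Real.sqrt 2 := by
    have h := norm_row (p := p) hH e1 e1 e2 he1 he1 he2 he 1 1
    rw [one_smul, one_smul, norm_one, one_pow] at h
    rw [h]; norm_num
  have hn : ∀ f e : H, ‖f‖ = 1 → ‖e‖ = 1 → ‖rk1 p hH f e‖ ≤ 1 := by
    intro f e hf he
    rw [norm_rk1, hf, he, mul_one]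
  have hRR : ∀ a b c d : H, (inner ℂ a ((rk1 p hH c d).op b) : ℂ) = inner ℂ d b * inner ℂ a c := by
    intro a b c d
    rw [rk1_op, RR_apply, inner_smul_right]
  rcases le_or_gt p 2 with h | h
  · refine ⟨T1 p hH e1 e2, norm_T1 hH h e1 e2 he1 he2 he, ?_⟩
    intro ι l hl U hU hcon
    refine not_limit hH (T1 p hH e1 e2) (rk1 p hH e1 e1) (rk1 p hH e2 e2) e1 e1 e1 e2 he1 he1 he1
      he2 (hn _ _ he1 he1) (hn _ _ he2 he2) ?_ ?_ ?_ l U hU hcon
    · rw [T1_apply, hRR, hRR, inner_self_unit e1 he1, he', he]; simp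
    · rw [T1_apply, hRR, hRR, inner_self_unit e2 he2, he', he]; simp
    · rw [hdiag, hrow]; exact two_rpow_ne hp2
  · refine ⟨T2 p hH e1 e2, norm_T2 hH h.le e1 e2 he1 he2 he, ?_⟩
    intro ι l hl U hU hcon
    refine not_limit hH (T2 p hH e1 e2) (rk1 p hH e1 e1) (rk1 p hH e1 e2) e1 e1 e2 e2 he1 he1 he2
      he2 (hn _ _ he1 he1) (hn _ _ he1 he2) ?_ ?_ ?_ l U hU hcon
    · rw [T2_apply, hRR, hRR, inner_self_unit e1 he1, he]; simp
    · rw [T2_apply, hRR, hRR, inner_self_unit e1 he1, inner_self_unit e2 he2, he']; simp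
    · rw [hdiag, hrow]; exact (two_rpow_ne hp2).symm

end Pool.Agent.Lib.MP_fd02da_an
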